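import Pool.Agent.H440R5.Main

/-!
# Asymptotic form of the tradeoff
-/

namespace Pool.Agent.H440R5

open Real Filter

theorem lg_le_log {n : ℕ} (hn : 2 ≤ n) : (lg n : ℝ) ≤ 3 * Real.log n := by
  have h1 : (Nat.log 2 n : ℝ) ≤ Real.logb 2 n := by
    have := Real.natLog_le_logb n 2
    simpa using this
  have h2 : (0.6931471803 : ℝ) < Real.log 2 := Real.log_two_gt_d9
  have h3 : Real.log 2 ≤ Real.log n := Real.log_le_log (by norm_num) (by exact_mod_cast hn)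
  have h4 : Real.logb 2 n = Real.log n / Real.log 2 := rfl
  have h5 : Real.log n / Real.log 2 ≤ 1.5 * Real.log n := by
    rw [div_le_iff₀ (by linarith)]
    nlinarith
  unfold lg
  push_cast
  linarith

theorem two_pow_t_le {n : ℕ} (hn : 1 ≤ n) {τ : ℝ} (hτ : 0 ≤ τ) :
    (2 : ℝ) ^ ⌊τ * Real.logb 2 n⌋₊ ≤ (n : ℝ) ^ τ := by
  have hn' : (0 : ℝ) < n := by exact_mod_cast hn
  have h0 : 0 ≤ Real.logb 2 n := Real.logb_nonneg (by norm_num) (by exact_mod_cast hn)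
  calc (2 : ℝ) ^ ⌊τ * Real.logb 2 n⌋₊ = (2 : ℝ) ^ ((⌊τ * Real.logb 2 n⌋₊ : ℕ) : ℝ) := by
        rw [Real.rpow_natCast]
    _ ≤ (2 : ℝ) ^ (τ * Real.logb 2 n) :=
        Real.rpow_le_rpow_of_exponent_le (by norm_num) (Nat.floor_le (by positivity))
    _ = (n : ℝ) ^ τ := by
        rw [mul_comm, Real.rpow_mul (by norm_num), Real.rpow_logb (by norm_num) (by norm_num) hn']

theorem lt_two_pow_t {n : ℕ} (hn : 1 ≤ n) {τ : ℝ} :
    (n : ℝ) ^ τ ≤ 2 * (2 : ℝ) ^ ⌊τ * Real.logb 2 n⌋₊ := by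
  have hn' : (0 : ℝ) < n := by exact_mod_cast hn
  calc (n : ℝ) ^ τ = (2 : ℝ) ^ (τ * Real.logb 2 n) := by
        rw [mul_comm, Real.rpow_mul (by norm_num), Real.rpow_logb (by norm_num) (by norm_num) hn']
    _ ≤ (2 : ℝ) ^ (((⌊τ * Real.logb 2 n⌋₊ + 1 : ℕ) : ℝ)) := by
        apply Real.rpow_le_rpow_of_exponent_le (by norm_num)
        push_cast
        exact (Nat.lt_floor_add_one _).le
    _ = 2 * (2 : ℝ) ^ ⌊τ * Real.logb 2 n⌋₊ := by
        rw [Real.rpow_natCast, pow_succ, mul_comm]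

/-- The space/time tradeoff for `k`-reachability. -/
theorem tradeoff (k C : ℕ) (hk : 2 ≤ k) (σ : ℝ) (h0 : 0 < σ)
    (h1 : σ ≤ ((k ^ 2 / 4 : ℕ) : ℝ) / (k : ℝ) ^ 2) :
    ∃ S T : ℕ → ℕ, HasOracle k C S T ∧ ∃ a b : ℝ, 0 < a ∧ 0 < b ∧ ∀ n : ℕ, 2 ≤ n →
      (T n : ℝ) ≤ a * (Real.log n) ^ b * (n : ℝ) ^ σ ∧
      (S n : ℝ) ≤ a * (Real.log n) ^ b * (n : ℝ) ^ (2 - σ * k / ((k ^ 2 / 4 : ℕ) : ℝ)) := by
  set q : ℕ := k ^ 2 / 4 with hq
  have hq1 : 1 ≤ q := by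
    rw [hq, Nat.le_div_iff_mul_le (by norm_num)]
    nlinarith
  have hqr : (0 : ℝ) < q := by exact_mod_cast hq1
  have hq4 : (q : ℝ) * 4 ≤ (k : ℝ) ^ 2 := by
    have := Nat.div_mul_le_self (k ^ 2) 4
    rw [← hq] at this
    exact_mod_cast this
  have hkr : (2 : ℝ) ≤ k := by exact_mod_cast hk
  have hk0 : (0 : ℝ) < k := by linarith
  set τ : ℝ := σ * k / q with hτ
  have hτ0 : 0 < τ := by positivity
  have hτk : τ * k ≤ 1 := by
    rw [hτ, div_mul_eq_mul_div, div_le_one hqr]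
    rw [le_div_iff₀ (by positivity)] at h1
    nlinarith
  have hστ : σ * k = τ * q := by
    rw [hτ]
    field_simp
  have hσ4 : σ ≤ 1 / 4 := by
    refine h1.trans ?_
    rw [div_le_div_iff₀ (by positivity) (by norm_num)]
    linarith
  have hτ2 : τ ≤ 1 / 2 := by nlinarith
  set t : ℕ → ℕ := fun n => ⌊τ * Real.logb 2 n⌋₊ with ht
  have htk : ∀ n, 1 ≤ n → (2 ^ t n) ^ k ≤ n := by
    intro n hn
    have hn' : (1 : ℝ) ≤ n := by exact_mod_cast hn
    have e1 : (((2 ^ t n) ^ k : ℕ) : ℝ) ≤ (n : ℝ) := by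
      push_cast
      calc ((2 : ℝ) ^ t n) ^ k ≤ ((n : ℝ) ^ τ) ^ k :=
            pow_le_pow_left₀ (by positivity) (two_pow_t_le hn hτ0.le) k
        _ = (n : ℝ) ^ (τ * k) := by
            rw [← Real.rpow_natCast, ← Real.rpow_mul (by linarith)]
        _ ≤ (n : ℝ) ^ (1 : ℝ) := Real.rpow_le_rpow_of_exponent_le hn' hτk
        _ = n := Real.rpow_one _
    exact_mod_cast e1
  refine ⟨_, _, oracle_nat k C (by omega) t htk, ?_⟩
  set K : ℝ := 9 ^ (k + 1) * ((k : ℝ) + 1) with hK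
  have hK1 : (k : ℝ) + 1 ≤ K := by
    rw [hK]
    have : (1 : ℝ) ≤ 9 ^ (k + 1) := one_le_pow₀ (by norm_num)
    nlinarith
  have hC1 : (1 : ℝ) ≤ ((C : ℝ) + 3) ^ 2 := by
    have : (0 : ℝ) ≤ C := Nat.cast_nonneg C
    nlinarith
  refine ⟨1000 * K * ((C : ℝ) + 3) ^ 2 * 3 ^ (k + 2), ((k + 2 : ℕ) : ℝ), by positivity,
    by positivity, fun n hn => ?_⟩
  have hn1 : 1 ≤ n := by omega
  have hnr : (1 : ℝ) ≤ n := by exact_mod_cast hn1
  have hn0 : (0 : ℝ) < n := by linarith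
  set L : ℝ := (lg n : ℝ) with hL
  have hL1 : (1 : ℝ) ≤ L := by rw [hL]; exact_mod_cast one_le_lg n
  have hLlog : L ≤ 3 * Real.log n := lg_le_log hn
  set N : ℝ := (n : ℝ) ^ σ with hN
  set W : ℝ := (n : ℝ) ^ (2 - τ) with hW
  have hN1 : 1 ≤ N := Real.one_le_rpow hnr h0.le
  have hNW : N * n ≤ W := by
    calc N * n = (n : ℝ) ^ σ * (n : ℝ) ^ (1 : ℝ) := by rw [Real.rpow_one]
      _ = (n : ℝ) ^ (σ + 1) := by rw [Real.rpow_add hn0]
      _ ≤ W := Real.rpow_le_rpow_of_exponent_le hnr (by linarith)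
  have hNW' : N ≤ W := by nlinarith
  have hW1 : 1 ≤ W := by linarith
  -- powers of two
  have hpow : (2 : ℝ) ^ bud k (t n) ≤ 2 * N := by
    unfold bud
    rw [pow_succ, mul_comm]
    apply mul_le_mul_of_nonneg_left _ (by norm_num)
    have e1 : ((t n * (k ^ 2 / 4) / k : ℕ) : ℝ) ≤ (t n : ℝ) * (q / k) := by
      refine Nat.cast_div_le.trans ?_
      push_cast
      rw [← hq, mul_div_assoc]
    calc (2 : ℝ) ^ (t n * (k ^ 2 / 4) / k)
        = (2 : ℝ) ^ ((t n * (k ^ 2 / 4) / k : ℕ) : ℝ) := by rw [Real.rpow_natCast]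
      _ ≤ (2 : ℝ) ^ ((t n : ℝ) * (q / k)) :=
          Real.rpow_le_rpow_of_exponent_le (by norm_num) e1
      _ = ((2 : ℝ) ^ t n) ^ ((q : ℝ) / k) := by
          rw [Real.rpow_mul (by norm_num), Real.rpow_natCast]
      _ ≤ ((n : ℝ) ^ τ) ^ ((q : ℝ) / k) :=
          Real.rpow_le_rpow (by positivity) (two_pow_t_le hn1 hτ0.le) (by positivity)
      _ = (n : ℝ) ^ (τ * (q / k)) := by rw [← Real.rpow_mul hn0.le]
      _ = N := by
          rw [hN]
          congr 1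
          rw [← mul_div_assoc, ← hστ]
          field_simp
  have hM0 : (((C + 3) ^ 2 * n ^ 2 / 2 ^ t n : ℕ) : ℝ) ≤ 2 * ((C : ℝ) + 3) ^ 2 * W := by
    refine Nat.cast_div_le.trans ?_
    push_cast
    rw [div_le_iff₀ (by positivity)]
    have e1 : (n : ℝ) ^ 2 = W * (n : ℝ) ^ τ := by
      rw [hW, ← Real.rpow_add hn0]
      rw [show (2 : ℝ) - τ + τ = ((2 : ℕ) : ℝ) by norm_num, Real.rpow_natCast]
    have e2 := lt_two_pow_t hn1 (τ := τ)
    rw [e1]
    calc ((C : ℝ) + 3) ^ 2 * (W * (n : ℝ) ^ τ)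
        ≤ ((C : ℝ) + 3) ^ 2 * (W * (2 * (2 : ℝ) ^ t n)) := by gcongr
      _ = 2 * ((C : ℝ) + 3) ^ 2 * W * 2 ^ t n := by ring
  -- the main quantities
  set Q : ℝ := L ^ (k + 1) * L with hQ
  have hP1 : (1 : ℝ) ≤ L ^ (k + 1) := one_le_pow₀ hL1
  have hLQ : L ≤ Q := by nlinarith
  have hQ1 : 1 ≤ Q := by linarith
  have hRl : ((Rf k (t n) n * lf k n : ℕ) : ℝ) ≤ 12 * K * Q * N := by
    unfold Rf lf
    push_cast
    rw [← hL]
    calc (9 * L) ^ (k + 1) * 2 ^ bud k (t n) * (6 * ((k : ℝ) + 1) * L)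
        ≤ (9 * L) ^ (k + 1) * (2 * N) * (6 * ((k : ℝ) + 1) * L) := by gcongr
      _ = 12 * K * Q * N := by rw [hK, hQ, mul_pow]; ring
  have hlM : ((lf k n * Mf k C (t n) n : ℕ) : ℝ) ≤ 12 * K * ((C : ℝ) + 3) ^ 2 * Q * W := by
    unfold lf Mf
    rw [Nat.cast_mul, Nat.cast_mul ((9 * lg n) ^ (k + 1))]
    calc ((6 * (k + 1) * lg n : ℕ) : ℝ) * (((9 * lg n) ^ (k + 1) : ℕ) *
          (((C + 3) ^ 2 * n ^ 2 / 2 ^ t n : ℕ) : ℝ))
        ≤ ((6 * (k + 1) * lg n : ℕ) : ℝ) * (((9 * lg n) ^ (k + 1) : ℕ) *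
          (2 * ((C : ℝ) + 3) ^ 2 * W)) := by gcongr
      _ = 12 * K * ((C : ℝ) + 3) ^ 2 * Q * W := by
          push_cast
          rw [← hL, hK, hQ, mul_pow]
          ring
  have hl : ((lf k n : ℕ) : ℝ) ≤ 6 * K * Q := by
    unfold lf
    push_cast
    rw [← hL]
    have h6 : ((k : ℝ) + 1) * L ≤ K * Q := mul_le_mul hK1 hLQ (by linarith) (by positivity)
    linarith
  have hQlog : Q ≤ 3 ^ (k + 2) * (Real.log n) ^ (((k + 2 : ℕ)) : ℝ) := by
    rw [Real.rpow_natCast, ← mul_pow, hQ, ← pow_succ]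
    exact pow_le_pow_left₀ (by linarith) hLlog _
  have hK0 : 0 < K := by positivity
  have hfac : 1000 * K * ((C : ℝ) + 3) ^ 2 * Q ≤
      1000 * K * ((C : ℝ) + 3) ^ 2 * 3 ^ (k + 2) * (Real.log n) ^ (((k + 2 : ℕ)) : ℝ) := by
    calc 1000 * K * ((C : ℝ) + 3) ^ 2 * Q
        ≤ 1000 * K * ((C : ℝ) + 3) ^ 2 * (3 ^ (k + 2) *
          (Real.log n) ^ (((k + 2 : ℕ)) : ℝ)) := by gcongr
      _ = _ := by ring
  have hK1' : 1 ≤ K := by linarith
  set D : ℝ := ((C : ℝ) + 3) ^ 2 with hD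
  have hKD : K ≤ K * D := by nlinarith
  have hQN : 1 ≤ Q * N := by nlinarith
  have hQW : 1 ≤ Q * W := by nlinarith
  constructor
  · have e1 : ((Tf k (t n) n : ℕ) : ℝ) ≤ 1000 * K * D * Q * N := by
      unfold Tf
      rw [Nat.cast_add, Nat.cast_mul 10]
      push_cast [hRl]
      have : ((Rf k (t n) n : ℕ) : ℝ) * (lf k n : ℝ) ≤ 12 * K * Q * N := by
        rw [← Nat.cast_mul]; exact hRl
      have e2 : 1 ≤ K * D * (Q * N) := by
        have : 1 ≤ K * D := by linarith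
        nlinarith
      have e3 : K * (Q * N) ≤ K * D * (Q * N) := by
        apply mul_le_mul_of_nonneg_right hKD (by positivity)
      nlinarith
    calc ((Tf k (t n) n : ℕ) : ℝ) ≤ 1000 * K * D * Q * N := e1
      _ ≤ _ := mul_le_mul_of_nonneg_right hfac (by positivity)
  · have e1 : ((Sf k C (t n) n : ℕ) : ℝ) ≤ 1000 * K * D * Q * W := by
      have hRl' : ((Rf k (t n) n : ℕ) : ℝ) * (lf k n : ℝ) ≤ 12 * K * Q * N := by
        rw [← Nat.cast_mul]; exact hRl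
      have hlM' : (lf k n : ℝ) * (Mf k C (t n) n : ℝ) ≤ 12 * K * D * Q * W := by
        rw [← Nat.cast_mul]; exact hlM
      unfold Sf
      push_cast
      have f1 : ((Rf k (t n) n : ℕ) : ℝ) * (lf k n : ℝ) * n ≤ 12 * K * Q * W := by
        calc ((Rf k (t n) n : ℕ) : ℝ) * (lf k n : ℝ) * n ≤ 12 * K * Q * N * n := by gcongr
          _ = 12 * K * Q * (N * n) := by ring
          _ ≤ 12 * K * Q * W := by gcongr
      have f2 : 12 * K * Q * N ≤ 12 * K * Q * W := by gcongr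
      have f3 : K * (Q * W) ≤ K * D * (Q * W) :=
        mul_le_mul_of_nonneg_right hKD (by positivity)
      have f4 : 1 ≤ K * D * (Q * W) := by
        have : 1 ≤ K * D := by linarith
        nlinarith
      have f5 : 6 * K * Q ≤ 6 * (K * (Q * W)) := by
        have : K * Q * 1 ≤ K * Q * W := by gcongr
        linarith
      nlinarith
    calc ((Sf k C (t n) n : ℕ) : ℝ) ≤ 1000 * K * D * Q * W := e1
      _ ≤ _ := mul_le_mul_of_nonneg_right hfac (by positivity)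

theorem log_pow_lt {K r η : ℝ} (hK : 0 < K) (hη : 0 < η) :
    ∀ᶠ n : ℕ in atTop, K * (Real.log n) ^ r < (n : ℝ) ^ η := by
  have h := (isLittleO_log_rpow_rpow_atTop r hη).def (c := 1 / (2 * K)) (by positivity)
  have h2 := tendsto_natCast_atTop_atTop (R := ℝ) |>.eventually h
  filter_upwards [h2, eventually_ge_atTop 2] with n hn h2
  have hn' : (2 : ℝ) ≤ n := by exact_mod_cast h2
  have hlog : 0 < Real.log n := Real.log_pos (by linarith)
  have e1 : 0 < (Real.log n) ^ r := Real.rpow_pos_of_pos hlog r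
  have e2 : 0 < (n : ℝ) ^ η := Real.rpow_pos_of_pos (by linarith) η
  rw [Real.norm_of_nonneg e1.le, Real.norm_of_nonneg e2.le] at hn
  calc K * (Real.log n) ^ r ≤ K * (1 / (2 * K) * (n : ℝ) ^ η) := by gcongr
    _ = (n : ℝ) ^ η / 2 := by field_simp
    _ < (n : ℝ) ^ η := by linarith

/-- The conjectured tradeoff fails for every `k ≥ 3`. -/
theorem not_tradeoffAt (k : ℕ) (hk : 3 ≤ k) : ¬ TradeoffAt k := by
  rintro ⟨δ, hδ, C, h⟩
  set q : ℕ := k ^ 2 / 4 with hq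
  have hq1 : 1 ≤ q := by
    rw [hq, Nat.le_div_iff_mul_le (by norm_num)]
    nlinarith
  have hqr : (0 : ℝ) < q := by exact_mod_cast hq1
  have hq4 : (q : ℝ) * 4 ≤ (k : ℝ) ^ 2 := by
    have := Nat.div_mul_le_self (k ^ 2) 4
    rw [← hq] at this
    exact_mod_cast this
  have hkr : (3 : ℝ) ≤ k := by exact_mod_cast hk
  have hk0 : (0 : ℝ) < k := by linarith
  set σ : ℝ := min (δ / 2) ((q : ℝ) / (k : ℝ) ^ 2) with hσ
  have hσ0 : 0 < σ := lt_min (by positivity) (by positivity)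
  obtain ⟨S, T, hor, a, b, ha, hb, hST⟩ := tradeoff k C (by omega) σ hσ0 (min_le_right _ _)
  have hT : ∀ᶠ n : ℕ in atTop, (T n : ℝ) ≤ (n : ℝ) ^ δ := by
    filter_upwards [log_pow_lt (r := b) ha (half_pos hδ), eventually_ge_atTop 2] with n h1 h2
    have hn' : (2 : ℝ) ≤ n := by exact_mod_cast h2
    calc (T n : ℝ) ≤ a * (Real.log n) ^ b * (n : ℝ) ^ σ := (hST n h2).1
      _ ≤ (n : ℝ) ^ (δ / 2) * (n : ℝ) ^ (δ / 2) := by
          apply mul_le_mul h1.le _ (by positivity) (by positivity)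
          exact Real.rpow_le_rpow_of_exponent_le (by linarith) (min_le_left _ _)
      _ = (n : ℝ) ^ δ := by
          rw [← Real.rpow_add (by linarith)]
          congr 1
          ring
  obtain ⟨c, hc, hev⟩ := h S T hor hT
  set s : ℝ := 2 / ((k : ℝ) - 1) with hs
  have hs0 : 0 < s := by
    rw [hs]
    apply div_pos (by norm_num)
    linarith
  set τ : ℝ := σ * k / q with hτ
  -- the gain
  have hη : 0 < τ - σ * s := by
    rw [hτ, hs]
    have e1 : (2 : ℝ) / ((k : ℝ) - 1) < k / q := by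
      rw [div_lt_div_iff₀ (by linarith) hqr]
      nlinarith
    have e2 : σ * (2 / ((k : ℝ) - 1)) < σ * (k / q) := by gcongr
    rw [mul_div_assoc]
    linarith
  have hsmall := log_pow_lt (K := a * a ^ s) (r := b + b * s + c) (by positivity) hη
  obtain ⟨n, h1, h2, h3⟩ := (hev.and (hsmall.and (eventually_ge_atTop 2))).exists
  obtain ⟨g1, g2⟩ := hST n h3
  have hn' : (2 : ℝ) ≤ n := by exact_mod_cast h3
  have hn0 : (0 : ℝ) < n := by linarith
  have hlog : 0 < Real.log n := Real.log_pos (by linarith)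
  have hTs : (T n : ℝ) ^ s ≤ a ^ s * (Real.log n) ^ (b * s) * (n : ℝ) ^ (σ * s) := by
    calc (T n : ℝ) ^ s ≤ (a * (Real.log n) ^ b * (n : ℝ) ^ σ) ^ s :=
          Real.rpow_le_rpow (by positivity) g1 hs0.le
      _ = a ^ s * (Real.log n) ^ (b * s) * (n : ℝ) ^ (σ * s) := by
          rw [Real.mul_rpow (by positivity) (by positivity), Real.mul_rpow (by positivity)
            (by positivity), ← Real.rpow_mul hlog.le, ← Real.rpow_mul hn0.le]
  have hfin : (S n : ℝ) * (T n : ℝ) ^ s ≤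
      a * a ^ s * (Real.log n) ^ (b + b * s) * (n : ℝ) ^ (2 - τ + σ * s) := by
    calc (S n : ℝ) * (T n : ℝ) ^ s
        ≤ (a * (Real.log n) ^ b * (n : ℝ) ^ (2 - τ)) *
          (a ^ s * (Real.log n) ^ (b * s) * (n : ℝ) ^ (σ * s)) :=
          mul_le_mul g2 hTs (by positivity) (by positivity)
      _ = _ := by
          rw [Real.rpow_add hlog, Real.rpow_add hn0]
          ring
  have hcontra : (n : ℝ) ^ (2 : ℝ) ≤ a * a ^ s * (Real.log n) ^ (b + b * s) *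
      (n : ℝ) ^ (2 - τ + σ * s) * (Real.log n) ^ c := by
    rw [← div_le_iff₀ (by positivity)]
    exact h1.trans hfin
  have hsplit : (n : ℝ) ^ (2 : ℝ) = (n : ℝ) ^ (τ - σ * s) * (n : ℝ) ^ (2 - τ + σ * s) := by
    rw [← Real.rpow_add hn0]
    congr 1
    ring
  have hpos : 0 < (n : ℝ) ^ (2 - τ + σ * s) := Real.rpow_pos_of_pos hn0 _
  rw [hsplit] at hcontra
  have : (n : ℝ) ^ (τ - σ * s) ≤ a * a ^ s * (Real.log n) ^ (b + b * s + c) := by
    rw [Real.rpow_add hlog (b + b * s) c]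
    have h5 : (n : ℝ) ^ (τ - σ * s) * (n : ℝ) ^ (2 - τ + σ * s) ≤
        (a * a ^ s * ((Real.log n) ^ (b + b * s) * (Real.log n) ^ c)) *
          (n : ℝ) ^ (2 - τ + σ * s) := by
      calc _ ≤ _ := hcontra
        _ = _ := by ring
    exact le_of_mul_le_mul_right h5 hpos
  linarith

end Pool.Agent.H440R5
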