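import Pool.Agent.H440R5.Ram

/-!
# Memory images which encode automata
-/

namespace Pool.Agent.H440R5

/-- The run of an automaton with transition function `δ` on two parallel streams of bits. -/
def arun {Q : Type} (δ : Q → Bool → Bool → Q) (q0 : Q) (x y : ℕ → Bool) : ℕ → Q
  | 0 => q0
  | i + 1 => δ (arun δ q0 x y i) (x i) (y i)

section
variable {Q : Type} [Fintype Q] {n : ℕ}

open Classical in
/-- The number of a state. -/
noncomputable def enc (q : Q) : ℕ := (Fintype.equivFin Q q : ℕ) + 1

open Classical in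
/-- The state with a given number. -/
noncomputable def dec (Q : Type) [Fintype Q] (j : ℕ) : Option Q :=
  if h : j - 1 < Fintype.card Q ∧ 1 ≤ j then some ((Fintype.equivFin Q).symm ⟨j - 1, h.1⟩)
  else none

theorem dec_enc (q : Q) : dec Q (enc q) = some q := by
  unfold dec enc
  have h : (Fintype.equivFin Q q : ℕ) + 1 - 1 < Fintype.card Q ∧
      1 ≤ (Fintype.equivFin Q q : ℕ) + 1 := by
    constructor
    · simp
    · omega
  rw [dif_pos h]
  simp

theorem enc_le (q : Q) : enc q ≤ Fintype.card Q := by
  unfold enc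
  have := (Fintype.equivFin Q q).isLt
  omega

theorem one_le_enc (q : Q) : 1 ≤ enc q := by
  unfold enc
  omega

theorem dec_none {j : ℕ} (h : Fintype.card Q < j) : dec Q j = none := by
  unfold dec
  rw [dif_neg]
  omega

/-- The memory image. -/
noncomputable def image (δ : Q → Bool → Bool → Q) (q0 : Q) (flag : Q → Bool)
    (xs ys : Fin n → ℕ → Bool) (N : ℕ) (a : ℕ) : ℕ :=
  if a = 0 then N
  else if a = 4 then 16 * enc q0
  else if a % 4 = 1 then
    (if h : a / 4 < N * n then
      (if xs ⟨a / 4 / N, Nat.div_lt_of_lt_mul h⟩ (a / 4 % N) then 11 else 3) else 0)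
  else if a % 4 = 2 then
    (if h : a / 4 < N * n then
      (if ys ⟨a / 4 / N, Nat.div_lt_of_lt_mul h⟩ (a / 4 % N) then 4 else 0) else 0)
  else if a % 4 = 3 then
    (match dec Q (a / 16) with
      | some q => 16 * enc (δ q (decide (a / 8 % 2 = 1)) (decide (a / 4 % 2 = 1)))
      | none => 0)
  else if a % 16 = 0 then
    (match dec Q (a / 16) with
      | some q => if flag q then 1 else 0
      | none => 0)
  else 0

variable (δ : Q → Bool → Bool → Q) (q0 : Q) (flag : Q → Bool)
    (xs ys : Fin n → ℕ → Bool) (N : ℕ)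

theorem image_le (a : ℕ) : image δ q0 flag xs ys N a ≤ 16 * Fintype.card Q + N + 11 := by
  unfold image
  have h0 := enc_le q0
  split_ifs
  all_goals try omega
  · split
    · rename_i q _
      have := enc_le (δ q (decide (a / 8 % 2 = 1)) (decide (a / 4 % 2 = 1)))
      omega
    · omega
  · split
    · split_ifs <;> omega
    · omega

theorem image_zero {S : ℕ} (hS : 16 * (Fintype.card Q + 1) + 4 * (N * n) + 16 ≤ S) (a : ℕ)
    (ha : S ≤ a) : image δ q0 flag xs ys N a = 0 := by
  unfold image
  have h1 : ¬ a = 0 := by omega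
  have h2 : ¬ a = 4 := by omega
  have h3 : ¬ a / 4 < N * n := by omega
  have h4 : dec Q (a / 16) = none := dec_none (by omega)
  simp only [h1, h2, h3, h4, if_false, dif_neg, not_false_eq_true]
  split_ifs <;> rfl

theorem image_x {a i : ℕ} (u : Fin n) (hi : i < N) (ha : a = 4 * ((u : ℕ) * N + i) + 1) :
    image δ q0 flag xs ys N a = if xs u i then 11 else 3 := by
  have h4 : a / 4 = (u : ℕ) * N + i := by omega
  have h5 : (u : ℕ) * N + i < N * n := by
    have : (u : ℕ) + 1 ≤ n := u.isLt
    nlinarith
  have h6 : ((u : ℕ) * N + i) / N = u := by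
    rw [mul_comm, Nat.mul_add_div (by omega), Nat.div_eq_of_lt hi]
    omega
  have h7 : ((u : ℕ) * N + i) % N = i := by
    rw [mul_comm, Nat.mul_add_mod, Nat.mod_eq_of_lt hi]
  unfold image
  rw [if_neg (by omega), if_neg (by omega), if_pos (by omega)]
  simp only [h4]
  rw [dif_pos h5]
  simp only [h6, h7]

theorem image_y {a i : ℕ} (u : Fin n) (hi : i < N) (ha : a = 4 * ((u : ℕ) * N + i) + 2) :
    image δ q0 flag xs ys N a = if ys u i then 4 else 0 := by
  have h4 : a / 4 = (u : ℕ) * N + i := by omega
  have h5 : (u : ℕ) * N + i < N * n := by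
    have : (u : ℕ) + 1 ≤ n := u.isLt
    nlinarith
  have h6 : ((u : ℕ) * N + i) / N = u := by
    rw [mul_comm, Nat.mul_add_div (by omega), Nat.div_eq_of_lt hi]
    omega
  have h7 : ((u : ℕ) * N + i) % N = i := by
    rw [mul_comm, Nat.mul_add_mod, Nat.mod_eq_of_lt hi]
  unfold image
  rw [if_neg (by omega), if_neg (by omega), if_neg (by omega), if_pos (by omega)]
  simp only [h4]
  rw [dif_pos h5]
  simp only [h6, h7]

theorem image_tr (q : Q) (x y : Bool) :
    image δ q0 flag xs ys N ((if x then 11 else 3) + (if y then 4 else 0) + 16 * enc q) =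
      16 * enc (δ q x y) := by
  have h1 := one_le_enc q
  set a := (if x then 11 else 3) + (if y then 4 else 0) + 16 * enc q with ha
  have h2 : a / 16 = enc q := by
    rw [ha]; cases x <;> cases y <;> simp <;> omega
  have h3 : decide (a / 8 % 2 = 1) = x := by
    rw [ha]; cases x <;> cases y <;> simp <;> omega
  have h4 : decide (a / 4 % 2 = 1) = y := by
    rw [ha]; cases x <;> cases y <;> simp <;> omega
  have h5 : a % 4 = 3 := by
    rw [ha]; cases x <;> cases y <;> simp <;> omega
  unfold image
  rw [if_neg (by omega), if_neg (by omega), if_neg (by omega), if_neg (by omega), if_pos h5,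
    h2, h3, h4, dec_enc]

theorem image_flag (q : Q) :
    image δ q0 flag xs ys N (16 * enc q) = if flag q then 1 else 0 := by
  have h1 := one_le_enc q
  have h2 : 16 * enc q / 16 = enc q := by omega
  unfold image
  rw [if_neg (by omega), if_neg (by omega), if_neg (by omega), if_neg (by omega),
    if_neg (by omega), if_pos (by omega), h2, dec_enc]

theorem image_run {w S : ℕ} (hS : 16 * (Fintype.card Q + 1) + 4 * (N * n) + 16 ≤ S)
    (_hNS : N ≤ S) (hw : S ≤ 2 ^ w) (u v : Fin n) (i : ℕ) (hi : i ≤ N) :
    LInv (image δ q0 flag xs ys N) N (enc (arun δ q0 (xs u) (ys v) i)) ((u : ℕ) * N)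
      ((v : ℕ) * N) i
      ((step w prog)^[10 * i] ((step w prog)^[11]
        (queryConfig (image δ q0 flag xs ys N) u v))) := by
  have hu : (u : ℕ) * N + N ≤ N * n := by
    have : (u : ℕ) + 1 ≤ n := u.isLt
    nlinarith
  have hv : (v : ℕ) * N + N ≤ N * n := by
    have : (v : ℕ) + 1 ≤ n := v.isLt
    nlinarith
  induction i with
  | zero =>
    apply init_steps
    · simp [image]
    · simp [image, arun]
    · have := enc_le q0
      simp only [arun]
      omega
    · omega
    · omega
    · omega
    · omega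
  | succ i ih =>
    have ih' := ih (by omega)
    have e1 : 10 * (i + 1) = 10 + 10 * i := by ring
    rw [e1, Function.iterate_add_apply]
    have hq := enc_le (arun δ q0 (xs u) (ys v) i)
    have hq' := enc_le (arun δ q0 (xs u) (ys v) (i + 1))
    refine loop_step (lx := if xs u i then 11 else 3) (ly := if ys v i then 4 else 0) ih'
      (by omega) ?_ ?_ ?_ ?_ ?_ ?_ ?_
    · exact image_x _ _ _ _ _ _ u (by omega) rfl
    · exact image_y _ _ _ _ _ _ v (by omega) rfl
    · rw [image_tr]
      rfl
    · split_ifs <;> omega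
    · omega
    · omega
    · omega

theorem exists_memory {S : ℕ} (hS : 16 * (Fintype.card Q + 1) + 4 * (N * n) + 16 ≤ S)
    (hNS : N ≤ S) :
    ∃ M : ℕ → ℕ, (∀ a, S ≤ a → M a = 0) ∧ (∀ a, M a ≤ 2 * S) ∧
      ∀ w, 2 * S < 2 ^ w → ∀ T, 13 + 10 * N ≤ T → ∀ u v : Fin n,
        prog[((step w prog)^[T] (queryConfig M u v)).pc]? = some Instr.halt ∧
        ((step w prog)^[T] (queryConfig M u v)).reg 0 =
          if flag (arun δ q0 (xs u) (ys v) N) then 1 else 0 := by
  refine ⟨image δ q0 flag xs ys N, fun a ha => image_zero _ _ _ _ _ _ hS a ha,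
    fun a => ?_, ?_⟩
  · have := image_le δ q0 flag xs ys N a
    omega
  · intro w hw T hT u v
    have h1 := image_run δ q0 flag xs ys N (w := w) hS hNS (by omega) u v N le_rfl
    have h2 := final_steps (w := w) h1 (image_flag δ q0 flag xs ys N _) (by split_ifs <;> omega)
    have e1 : T = (T - (13 + 10 * N)) + (2 + (10 * N + 11)) := by omega
    rw [e1, Function.iterate_add_apply, Function.iterate_add_apply _ 2 (10 * N + 11),
      Function.iterate_add_apply _ (10 * N) 11, iterate_halt h2.1]
    exact h2

end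

end Pool.Agent.H440R5
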