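import Pool.Agent.H440R5.Graph

/-!
# Sizes of the tables
-/

namespace Pool.Agent.H440R5

open Finset

section graph
variable {V : Type} [Fintype V] [DecidableEq V] (E : Finset (V × V))

theorem card_prod_ge (D : ℕ) :
    D * {p : V × V | D ≤ (Nout E p.1).card * (Nin E p.2).card}.ncard ≤ E.card ^ 2 := by
  classical
  rw [show {p : V × V | D ≤ (Nout E p.1).card * (Nin E p.2).card} =
    ((univ.filter (fun p : V × V => D ≤ (Nout E p.1).card * (Nin E p.2).card) :
      Finset (V × V)) : Set (V × V)) by ext; simp, Set.ncard_coe_finset]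
  calc D * (univ.filter (fun p : V × V => D ≤ (Nout E p.1).card * (Nin E p.2).card)).card
      = ∑ p ∈ univ.filter (fun p : V × V => D ≤ (Nout E p.1).card * (Nin E p.2).card), D := by
        rw [sum_const, smul_eq_mul, mul_comm]
    _ ≤ ∑ p ∈ univ.filter (fun p : V × V => D ≤ (Nout E p.1).card * (Nin E p.2).card),
          (Nout E p.1).card * (Nin E p.2).card :=
        sum_le_sum (fun p hp => (mem_filter.mp hp).2)
    _ ≤ ∑ p : V × V, (Nout E p.1).card * (Nin E p.2).card :=
        sum_le_sum_of_subset (filter_subset _ _)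
    _ = (∑ x, (Nout E x).card) * (∑ y, (Nin E y).card) := by
        rw [Finset.sum_mul_sum, Fintype.sum_prod_type]
    _ = E.card ^ 2 := by rw [sum_out, sum_in, sq]

theorem card_out_ge (D : ℕ) :
    D * {p : V × V | D ≤ (Nout E p.2).card}.ncard ≤ Fintype.card V * E.card := by
  classical
  rw [show {p : V × V | D ≤ (Nout E p.2).card} =
    ((univ.filter (fun p : V × V => D ≤ (Nout E p.2).card) :
      Finset (V × V)) : Set (V × V)) by ext; simp, Set.ncard_coe_finset]
  calc D * (univ.filter (fun p : V × V => D ≤ (Nout E p.2).card)).card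
      = ∑ p ∈ univ.filter (fun p : V × V => D ≤ (Nout E p.2).card), D := by
        rw [sum_const, smul_eq_mul, mul_comm]
    _ ≤ ∑ p ∈ univ.filter (fun p : V × V => D ≤ (Nout E p.2).card), (Nout E p.2).card :=
        sum_le_sum (fun p hp => (mem_filter.mp hp).2)
    _ ≤ ∑ p : V × V, (Nout E p.2).card := sum_le_sum_of_subset (filter_subset _ _)
    _ = Fintype.card V * E.card := by
        rw [Fintype.sum_prod_type]
        simp only [sum_out, sum_const, card_univ, smul_eq_mul]

theorem card_Jw (D i : ℕ) : {p : V × V | Jw E D i p.1 p.2}.ncard ≤ E.card * D ^ i := by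
  classical
  have hset : ∀ i, {p : V × V | Jw E D i p.1 p.2} =
    ((univ.filter (fun p : V × V => Jw E D i p.1 p.2) : Finset (V × V)) : Set (V × V)) := by
    intro i; ext; simp
  rw [hset, Set.ncard_coe_finset]
  induction i with
  | zero =>
    rw [pow_zero, mul_one]
    apply card_le_card
    intro p hp
    simpa [Jw] using hp
  | succ i ih =>
    have hsub : univ.filter (fun p : V × V => Jw E D (i + 1) p.1 p.2) ⊆
        (univ.filter (fun p : V × V => Jw E D i p.1 p.2)).biUnion (fun q =>
          if (Nout E q.2).card < D then (Nout E q.2).image (fun y => (q.1, y)) else ∅) := by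
      intro p hp
      simp only [mem_filter, mem_univ, true_and, Jw] at hp
      obtain ⟨z, h1, h2, h3⟩ := hp
      rw [mem_biUnion]
      refine ⟨(p.1, z), by simpa using h1, ?_⟩
      simp only
      rw [if_pos h2]
      simp only [mem_image]
      exact ⟨p.2, by simpa [Nout] using h3, rfl⟩
    refine (card_le_card hsub).trans (card_biUnion_le.trans ?_)
    calc ∑ q ∈ univ.filter (fun p : V × V => Jw E D i p.1 p.2),
          (if (Nout E q.2).card < D then (Nout E q.2).image (fun y => (q.1, y)) else ∅).card
        ≤ ∑ q ∈ univ.filter (fun p : V × V => Jw E D i p.1 p.2), D := by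
          apply sum_le_sum
          intro q _
          split_ifs with h
          · exact card_image_le.trans h.le
          · simp
      _ = (univ.filter (fun p : V × V => Jw E D i p.1 p.2)).card * D := by
          rw [sum_const, smul_eq_mul]
      _ ≤ E.card * D ^ i * D := Nat.mul_le_mul_right _ ih
      _ = E.card * D ^ (i + 1) := by ring

theorem card_KT {D k j : ℕ} (hD : 1 ≤ D) (hj : j ≤ k) (hk : D ^ k ≤ Fintype.card V) :
    D * {p : V × V | KT E D j p.1 p.2}.ncard ≤
      E.card ^ 2 + 2 * (Fintype.card V * E.card) := by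
  have hsub : {p : V × V | KT E D j p.1 p.2} ⊆
      ({p : V × V | D ≤ (Nout E p.1).card * (Nin E p.2).card} ∪
        {p : V × V | D ≤ (Nout E p.2).card}) ∪
      {p : V × V | ∃ i, j = i + 1 ∧ Jw E D i p.1 p.2} := by
    rintro p (⟨_, h | h⟩ | h)
    · exact Or.inl (Or.inl h)
    · exact Or.inl (Or.inr h)
    · exact Or.inr h
  have h1 := Set.ncard_le_ncard hsub (Set.toFinite _)
  have h2 := Set.ncard_union_le ({p : V × V | D ≤ (Nout E p.1).card * (Nin E p.2).card} ∪
        {p : V × V | D ≤ (Nout E p.2).card}) {p : V × V | ∃ i, j = i + 1 ∧ Jw E D i p.1 p.2}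
  have h3 := Set.ncard_union_le {p : V × V | D ≤ (Nout E p.1).card * (Nin E p.2).card}
        {p : V × V | D ≤ (Nout E p.2).card}
  have h4 := card_prod_ge E D
  have h5 := card_out_ge E D
  have h6 : D * {p : V × V | ∃ i, j = i + 1 ∧ Jw E D i p.1 p.2}.ncard ≤
      Fintype.card V * E.card := by
    cases j with
    | zero => simp
    | succ i =>
      have e1 : {p : V × V | ∃ i', i + 1 = i' + 1 ∧ Jw E D i' p.1 p.2} =
          {p : V × V | Jw E D i p.1 p.2} := by
        ext p
        constructor
        · rintro ⟨i', h, h'⟩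
          have : i = i' := by omega
          subst this
          exact h'
        · intro h
          exact ⟨i, rfl, h⟩
      rw [e1]
      calc D * {p : V × V | Jw E D i p.1 p.2}.ncard ≤ D * (E.card * D ^ i) :=
            Nat.mul_le_mul_left _ (card_Jw E D i)
        _ = E.card * D ^ (i + 1) := by ring
        _ ≤ E.card * D ^ k := Nat.mul_le_mul_left _ (Nat.pow_le_pow_right hD hj)
        _ ≤ E.card * Fintype.card V := Nat.mul_le_mul_left _ hk
        _ = _ := by ring
  nlinarith

/-- The exploration predicate has a sparse bilinear representation. -/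
theorem rep_Z {D k c₀ M0 : ℕ} (hM0 : ∀ j ≤ k, {p : V × V | KT E D j p.1 p.2}.ncard ≤ M0) :
    ∀ j ≤ k, ∀ c ≤ c₀, Rep (Z E D j c) ((4 * (c₀ + 1) + 1) ^ (j + 1) * 2 ^ c)
      ((4 * (c₀ + 1) + 1) ^ (j + 1) * M0)
      ((4 * (c₀ + 1) + 1) ^ (j + 1) * (Fintype.card V + 1)) := by
  classical
  intro j
  induction j with
  | zero =>
    intro hj c hc
    refine (Rep.table (Z E D 0 c) (M := M0) (hM0 0 hj)).mono ?_ ?_ ?_
    · exact Nat.one_le_iff_ne_zero.mpr (by positivity)
    · exact Nat.le_mul_of_pos_left _ (by positivity)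
    · exact (Nat.le_succ _).trans (Nat.le_mul_of_pos_left _ (by positivity))
  | succ j ih =>
    intro hj c hc
    set Λ := 4 * (c₀ + 1) + 1 with hΛ
    set P := Λ ^ (j + 1) with hP
    have hP1 : 1 ≤ P := Nat.one_le_iff_ne_zero.mpr (by positivity)
    have hT := Rep.table (KT E D (j + 1)) (M := M0) (hM0 (j + 1) hj)
    have hbase : ∀ a < c + 1, Rep (Z E D j (c - a)) (P * 2 ^ (c - a)) (P * M0)
        (P * (Fintype.card V + 1)) := fun a ha => ih (by omega) (c - a) (by omega)
    have hL : Rep (fun x y => ∃ a < c + 1, ∃ z ∈ (if Nat.log 2 (Nout E x).card = a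
        then Nout E x else ∅), Z E D j (c - a) z y) ((c + 1) * (2 * P * 2 ^ c))
        ((c + 1) * (P * M0)) ((c + 1) * (P * (Fintype.card V + 1) + 1)) := by
      apply Rep.exists_lt (F := fun a x y => ∃ z ∈ (if Nat.log 2 (Nout E x).card = a
        then Nout E x else ∅), Z E D j (c - a) z y)
      intro a ha
      refine ((hbase a ha).left (fun x => if Nat.log 2 (Nout E x).card = a
        then Nout E x else ∅) (r := 2 ^ (a + 1)) ?_).mono ?_ le_rfl le_rfl
      · intro x
        split_ifs with h
        · rw [← h]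
          exact (Nat.lt_pow_succ_log_self (by norm_num) _).le
        · simp
      · apply le_of_eq
        have : 2 ^ c = 2 ^ a * 2 ^ (c - a) := by rw [← pow_add]; congr 1; omega
        rw [this]; ring
    have hR : Rep (fun x y => ∃ b < c + 1, ∃ z ∈ (if Nat.log 2 (Nin E y).card = b
        then Nin E y else ∅), Z E D j (c - b) x z) ((c + 1) * (2 * P * 2 ^ c))
        ((c + 1) * (P * M0)) ((c + 1) * (P * (Fintype.card V + 1) + 1)) := by
      apply Rep.exists_lt (F := fun b x y => ∃ z ∈ (if Nat.log 2 (Nin E y).card = b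
        then Nin E y else ∅), Z E D j (c - b) x z)
      intro a ha
      refine ((hbase a ha).right (fun x => if Nat.log 2 (Nin E x).card = a
        then Nin E x else ∅) (r := 2 ^ (a + 1)) ?_).mono ?_ le_rfl le_rfl
      · intro x
        split_ifs with h
        · rw [← h]
          exact (Nat.lt_pow_succ_log_self (by norm_num) _).le
        · simp
      · apply le_of_eq
        have : 2 ^ c = 2 ^ a * 2 ^ (c - a) := by rw [← pow_add]; congr 1; omega
        rw [this]; ring
    have hfin := hT.or (hL.or hR)
    refine (hfin.mono ?_ ?_ ?_).congr (fun u v => Iff.rfl)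
    · rw [pow_succ Λ (j + 1), ← hP]
      have h1 : 1 ≤ 2 ^ c := Nat.one_le_two_pow
      have h2 : 1 ≤ P * 2 ^ c := Nat.one_le_iff_ne_zero.mpr (by positivity)
      have h3 : (c + 1) * (P * 2 ^ c) ≤ (c₀ + 1) * (P * 2 ^ c) :=
        Nat.mul_le_mul_right _ (by omega)
      calc 1 + ((c + 1) * (2 * P * 2 ^ c) + (c + 1) * (2 * P * 2 ^ c))
          = 1 + 4 * ((c + 1) * (P * 2 ^ c)) := by ring
        _ ≤ P * 2 ^ c + 4 * ((c₀ + 1) * (P * 2 ^ c)) := by omega
        _ = P * Λ * 2 ^ c := by rw [hΛ]; ring
    · rw [pow_succ Λ (j + 1), ← hP]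
      have h2 : M0 ≤ P * M0 := Nat.le_mul_of_pos_left _ hP1
      have h3 : (c + 1) * (P * M0) ≤ (c₀ + 1) * (P * M0) := Nat.mul_le_mul_right _ (by omega)
      calc M0 + ((c + 1) * (P * M0) + (c + 1) * (P * M0))
          ≤ P * M0 + 4 * ((c₀ + 1) * (P * M0)) := by omega
        _ = P * Λ * M0 := by rw [hΛ]; ring
    · rw [pow_succ Λ (j + 1), ← hP]
      set n1 := Fintype.card V + 1 with hn1
      have h2 : n1 ≤ P * n1 := Nat.le_mul_of_pos_left _ hP1
      have h3 : (c + 1) * (P * n1 + 1) ≤ (c₀ + 1) * (P * n1 + 1) :=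
        Nat.mul_le_mul_right _ (by omega)
      have h4 : (c₀ + 1) * 1 ≤ (c₀ + 1) * (P * n1) :=
        Nat.mul_le_mul_left _ (by omega)
      calc Fintype.card V + ((c + 1) * (P * n1 + 1) + (c + 1) * (P * n1 + 1))
          ≤ P * n1 + 2 * ((c₀ + 1) * (P * n1 + 1)) := by omega
        _ = P * n1 + 2 * ((c₀ + 1) * (P * n1)) + 2 * ((c₀ + 1) * 1) := by ring
        _ ≤ P * n1 + 4 * ((c₀ + 1) * (P * n1)) := by omega
        _ = P * Λ * n1 := by rw [hΛ]; ring

/-- Walks of length `k` have a sparse bilinear representation. -/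
theorem rep_walk {θ k c M0 : ℕ} (hk : 1 ≤ k)
    (hc : ∀ P Q : ℕ, 1 ≤ P → 1 ≤ Q → P + Q = k → θ * (P * Q) ≤ c * (P + Q))
    (hM0 : ∀ j ≤ k, {p : V × V | KT E (2 ^ θ) j p.1 p.2}.ncard ≤ M0) :
    Rep (Wk E k) ((4 * (c + 1) + 1) ^ (k + 1) * 2 ^ c) ((4 * (c + 1) + 1) ^ (k + 1) * M0)
      ((4 * (c + 1) + 1) ^ (k + 1) * (Fintype.card V + 1)) :=
  (rep_Z E hM0 k le_rfl c le_rfl).congr
    (fun _ _ => ⟨fun h => Z.complete hk hc h, fun h => Z.wk h⟩)

end graph

/-! ## Paths and walks -/

section paths
variable {n : ℕ} (E : Finset (Fin n × Fin n))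

/-- All edges together with the loops. -/
def loops : Finset (Fin n × Fin n) := E ∪ univ.image (fun x => (x, x))

theorem card_loops : (loops E).card ≤ E.card + n := by
  unfold loops
  refine (card_union_le _ _).trans ?_
  have := card_image_le (s := (univ : Finset (Fin n))) (f := fun x => (x, x))
  simp only [card_univ, Fintype.card_fin] at this
  omega

theorem mem_loops {x y : Fin n} : (x, y) ∈ loops E ↔ (x, y) ∈ E ∨ x = y := by
  simp [loops]

theorem walk_loops {k : ℕ} {u v : Fin n} :
    Wk (loops E) k u v ↔ ∃ j ≤ k, Wk E j u v := by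
  constructor
  · intro h
    induction k generalizing u with
    | zero =>
      obtain ⟨p, h1, h2, _⟩ := h
      exact ⟨0, le_rfl, p, h1, h2, fun i hi => by omega⟩
    | succ k ih =>
      obtain ⟨p, h1, h2, h3⟩ := h
      have h4 : Wk (loops E) k (p 1) v := ⟨fun i => p (i + 1), rfl, h2, fun i hi =>
        h3 (i + 1) (by omega)⟩
      obtain ⟨j, hj, h5⟩ := ih h4
      have h6 := h3 0 (by omega)
      rw [h1, mem_loops] at h6
      rcases h6 with h6 | h6
      · exact ⟨j + 1, by omega, Wk.cons h6 h5⟩
      · rw [h6]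
        exact ⟨j, by omega, h5⟩
  · rintro ⟨j, hj, p, h1, h2, h3⟩
    refine ⟨fun i => if i ≤ j then p i else v, by simp [h1], ?_, fun i hi => ?_⟩
    · rcases Nat.lt_or_ge j k with h | h
      · simp only
        rw [if_neg (by omega)]
      · have : j = k := by omega
        subst this
        simp [h2]
    · rw [mem_loops]
      rcases Nat.lt_trichotomy i j with h | h | h
      · left
        simp only
        rw [if_pos (by omega), if_pos (by omega)]
        exact h3 i h
      · right
        simp only
        rw [if_pos (by omega), if_neg (by omega), h, h2]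
      · right
        simp only
        rw [if_neg (by omega), if_neg (by omega)]

theorem pathWithin_iff {k : ℕ} {u v : Fin n} :
    PathWithin E k u v ↔ ∃ j ≤ k, Wk E j u v := by
  classical
  constructor
  · rintro ⟨j, hj, p, h1, h2, h3, _⟩
    exact ⟨j, hj, p, h1, h2, h3⟩
  · intro hex
    have hex' : ∃ j, Wk E j u v := by
      obtain ⟨j, _, h⟩ := hex
      exact ⟨j, h⟩
    obtain ⟨j, hj, hw⟩ := hex
    have hmin : Nat.find hex' ≤ j := Nat.find_min' hex' hw
    obtain ⟨p, h1, h2, h3⟩ := Nat.find_spec hex'
    set m := Nat.find hex' with hm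
    refine ⟨m, by omega, p, h1, h2, h3, ?_⟩
    have key : ∀ a b : ℕ, a < b → b ≤ m → p a ≠ p b := by
      intro a b hab hb heq
      have : Wk E (m - (b - a)) u v := by
        refine ⟨fun i => if i ≤ a then p i else p (i + (b - a)), by simp [h1], ?_, ?_⟩
        · simp only
          split_ifs with h
          · have : m = b := by omega
            rw [← h2, this, ← heq]
            congr 1
            omega
          · rw [← h2]
            congr 1
            omega
        · intro i hi
          simp only
          split_ifs with h4 h5 h5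
          · exact h3 i (by omega)
          · have : i = a := by omega
            rw [this, heq, show a + 1 + (b - a) = b + 1 by omega]
            exact h3 b (by omega)
          · omega
          · rw [show i + 1 + (b - a) = i + (b - a) + 1 by omega]
            exact h3 (i + (b - a)) (by omega)
      have := Nat.find_min' hex' this
      omega
    intro a ha b hb hab
    simp only [Set.mem_Iic] at ha hb
    rcases Nat.lt_trichotomy a b with h | h | h
    · exact absurd hab (key a b h hb)
    · exact h
    · exact absurd hab.symm (key b a h ha)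

end paths

end Pool.Agent.H440R5
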