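import Pool.Agent.H440R5.Trie

/-!
# The combinatorics of the data structure
-/

namespace Pool.Agent.H440R5

open Finset

/-- Two sequences of costs: one can explore from both ends at total cost at most `c` until a
terminal pair is reached. -/
theorem balance {P Q θ c : ℕ} (a b : ℕ → ℕ) (hP : 1 ≤ P) (hQ : 1 ≤ Q)
    (hc : θ * (P * Q) ≤ c * (P + Q)) :
    ∃ l ≤ P, ∃ l' ≤ Q, ∑ i ∈ range l, a i + ∑ i ∈ range l', b i ≤ c ∧
      (l = P ∨ l' = Q ∨ θ ≤ a l + b l') := by
  classical
  by_contra hno
  push Not at hno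
  -- one-sided data
  have mono : ∀ f : ℕ → ℕ, Monotone (fun l => ∑ i ∈ range l, f i) := by
    intro f
    exact monotone_nat_of_le_succ (fun l => by rw [sum_range_succ]; omega)
  have hA : c < ∑ i ∈ range P, a i := by
    by_contra h
    exact (hno P le_rfl 0 (by omega) (by simpa using h)).1 rfl
  have hB : c < ∑ i ∈ range Q, b i := by
    by_contra h
    exact (hno 0 (by omega) Q le_rfl (by simpa using h)).2.1 rfl
  have key : ∀ (f : ℕ → ℕ) (K : ℕ), c < ∑ i ∈ range K, f i →
      ∃ L : ℕ → ℕ, (∀ x ≤ c, L x < K ∧ ∑ i ∈ range (L x), f i ≤ x ∧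
        x < ∑ i ∈ range (L x + 1), f i) ∧
        (c + 1) ^ 2 ≤ K * ∑ x ∈ range (c + 1), f (L x) := by
    intro f K hK
    have hex : ∀ x ≤ c, ∃ l, x < ∑ i ∈ range (l + 1), f i := by
      intro x hx
      refine ⟨K, ?_⟩
      have := mono f (show K ≤ K + 1 by omega)
      simp only at this
      omega
    let L : ℕ → ℕ := fun x => if h : x ≤ c then Nat.find (hex x h) else 0
    have hL : ∀ x ≤ c, L x < K ∧ ∑ i ∈ range (L x), f i ≤ x ∧
        x < ∑ i ∈ range (L x + 1), f i := by
      intro x hx
      have hLx : L x = Nat.find (hex x hx) := by simp [L, hx]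
      have h1 := Nat.find_spec (hex x hx)
      rw [← hLx] at h1
      refine ⟨?_, ?_, h1⟩
      · have hK0 : K ≠ 0 := by
          rintro rfl
          simp at hK
        obtain ⟨K', rfl⟩ : ∃ K', K = K' + 1 := ⟨K - 1, by omega⟩
        rw [hLx, Nat.lt_succ_iff]
        apply Nat.find_min'
        omega
      · rcases Nat.eq_zero_or_pos (L x) with h0 | h0
        · rw [h0]; simp
        · by_contra h2
          push Not at h2
          have h3 : Nat.find (hex x hx) ≤ L x - 1 := by
            apply Nat.find_min'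
            rw [Nat.sub_add_cancel h0]
            exact h2
          omega
    refine ⟨L, hL, ?_⟩
    -- fibre counting
    have h1 : ∑ x ∈ range (c + 1), f (L x) =
        ∑ l ∈ range K, ((range (c + 1)).filter (fun x => L x = l)).card * f l := by
      rw [← Finset.sum_fiberwise_of_maps_to (s := range (c + 1)) (t := range K) (g := L)]
      · apply Finset.sum_congr rfl
        intro l _
        rw [Finset.sum_congr rfl (g := fun _ => f l)]
        · rw [sum_const, smul_eq_mul]
        · intro x hx
          rw [(mem_filter.mp hx).2]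
      · intro x hx
        rw [mem_range] at hx ⊢
        exact (hL x (by omega)).1
    have h2 : ∀ l ∈ range K, ((range (c + 1)).filter (fun x => L x = l)).card ≤ f l := by
      intro l _
      have hsub : (range (c + 1)).filter (fun x => L x = l) ⊆
          Finset.Ico (∑ i ∈ range l, f i) (∑ i ∈ range (l + 1), f i) := by
        intro x hx
        rw [mem_filter, mem_range] at hx
        have := hL x (by omega)
        rw [hx.2] at this
        rw [mem_Ico]
        exact this.2
      refine (card_le_card hsub).trans ?_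
      rw [Nat.card_Ico, sum_range_succ]
      omega
    have h3 : c + 1 = ∑ l ∈ range K, ((range (c + 1)).filter (fun x => L x = l)).card := by
      rw [← Finset.card_eq_sum_card_fiberwise]
      · simp
      · intro x hx
        simp only [coe_range, Set.mem_Iio] at hx ⊢
        exact (hL x (by omega)).1
    rw [h1]
    have h4 : (∑ l ∈ range K, ((range (c + 1)).filter (fun x => L x = l)).card) ^ 2 ≤
        K * ∑ l ∈ range K, ((range (c + 1)).filter (fun x => L x = l)).card ^ 2 := by
      have := sq_sum_le_card_mul_sum_sq (s := range K)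
        (f := fun l => ((range (c + 1)).filter (fun x => L x = l)).card)
      simpa using this
    rw [← h3] at h4
    refine h4.trans (Nat.mul_le_mul_left _ (sum_le_sum fun l hl => ?_))
    rw [sq]
    exact Nat.mul_le_mul_left _ (h2 l hl)
  obtain ⟨L, hL1, hL2⟩ := key a P hA
  obtain ⟨L', hL1', hL2'⟩ := key b Q hB
  have h5 : ∑ x ∈ range (c + 1), b (L' x) = ∑ x ∈ range (c + 1), b (L' (c - x)) := by
    rw [← Finset.sum_range_reflect]
    apply sum_congr rfl
    intro x hx
    simp
  have h6 : ∑ x ∈ range (c + 1), (a (L x) + b (L' (c - x)) + 1) ≤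
      ∑ x ∈ range (c + 1), θ := by
    apply sum_le_sum
    intro x hx
    rw [mem_range] at hx
    have e1 := hL1 x (by omega)
    have e2 := hL1' (c - x) (by omega)
    have := (hno (L x) (by omega) (L' (c - x)) (by omega) (by omega)).2.2
    omega
  rw [sum_add_distrib, sum_add_distrib, ← h5] at h6
  simp only [sum_const, card_range, smul_eq_mul, mul_one] at h6
  set SA := ∑ x ∈ range (c + 1), a (L x)
  set SB := ∑ x ∈ range (c + 1), b (L' x)
  -- (c+1)^2 ≤ P*SA, (c+1)^2 ≤ Q*SB, SA + SB + (c+1) ≤ (c+1) θ
  have h7 : (P + Q) * (c + 1) ^ 2 ≤ P * Q * (SA + SB) := by nlinarith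
  have h8 : (P + Q) * (c + 1) ^ 2 + P * Q * (c + 1) ≤ P * Q * ((c + 1) * θ) := by
    calc (P + Q) * (c + 1) ^ 2 + P * Q * (c + 1) ≤ P * Q * (SA + SB) + P * Q * (c + 1) :=
          Nat.add_le_add_right h7 _
      _ = P * Q * (SA + SB + (c + 1)) := by ring
      _ ≤ _ := Nat.mul_le_mul_left _ h6
  have h9 : P * Q * ((c + 1) * θ) ≤ (c * (P + Q)) * (c + 1) := by
    calc P * Q * ((c + 1) * θ) = θ * (P * Q) * (c + 1) := by ring
      _ ≤ _ := Nat.mul_le_mul_right _ hc
  have h10 : 0 < P * Q * (c + 1) := by positivity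
  nlinarith

section graph
variable {V : Type} [Fintype V] [DecidableEq V] (E : Finset (V × V))

/-- Out-neighbours. -/
def Nout (x : V) : Finset V := univ.filter (fun y => (x, y) ∈ E)

/-- In-neighbours. -/
def Nin (y : V) : Finset V := univ.filter (fun x => (x, y) ∈ E)

/-- Walks of length `j`. -/
def Wk (j : ℕ) (x y : V) : Prop :=
  ∃ p : ℕ → V, p 0 = x ∧ p j = y ∧ ∀ i < j, (p i, p (i + 1)) ∈ E

theorem sum_out : ∑ x, (Nout E x).card = E.card := by
  rw [Finset.card_eq_sum_card_fiberwise (f := Prod.fst) (t := univ) (by simp)]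
  apply sum_congr rfl
  intro x _
  apply Finset.card_bij (fun y _ => (x, y))
  · intro y hy
    simp only [Nout, mem_filter, mem_univ, true_and] at hy
    simp [hy]
  · intro y _ y' _ h
    simpa using h
  · rintro ⟨x', y⟩ h
    simp only [mem_filter] at h
    obtain ⟨h1, rfl⟩ := h
    exact ⟨y, by simp [Nout, h1], rfl⟩

theorem sum_in : ∑ y, (Nin E y).card = E.card := by
  rw [Finset.card_eq_sum_card_fiberwise (f := Prod.snd) (t := univ) (by simp)]
  apply sum_congr rfl
  intro x _
  apply Finset.card_bij (fun y _ => (y, x))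
  · intro y hy
    simp only [Nin, mem_filter, mem_univ, true_and] at hy
    simp [hy]
  · intro y _ y' _ h
    simpa using h
  · rintro ⟨y, x'⟩ h
    simp only [mem_filter] at h
    obtain ⟨h1, rfl⟩ := h
    exact ⟨y, by simp [Nin, h1], rfl⟩

variable {E}

theorem Wk.refl (x : V) : Wk E 0 x x := ⟨fun _ => x, rfl, rfl, fun i hi => by omega⟩

theorem Wk.cons {j : ℕ} {x z y : V} (h1 : (x, z) ∈ E) (h2 : Wk E j z y) :
    Wk E (j + 1) x y := by
  obtain ⟨p, h3, h4, h5⟩ := h2
  refine ⟨fun i => if i = 0 then x else p (i - 1), by simp, by simp [h4], fun i hi => ?_⟩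
  rcases Nat.eq_zero_or_pos i with rfl | h
  · simpa [h3] using h1
  · have h6 := h5 (i - 1) (by omega)
    rw [Nat.sub_add_cancel h] at h6
    simp only [Nat.add_sub_cancel]
    rw [if_neg (by omega), if_neg (by omega)]
    exact h6

theorem Wk.snoc {j : ℕ} {x z y : V} (h2 : Wk E j x z) (h1 : (z, y) ∈ E) :
    Wk E (j + 1) x y := by
  obtain ⟨p, h3, h4, h5⟩ := h2
  refine ⟨fun i => if i ≤ j then p i else y, by simp [h3], by simp, fun i hi => ?_⟩
  rcases Nat.lt_or_ge i j with h | h
  · simp only
    rw [if_pos (by omega), if_pos (by omega)]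
    exact h5 i h
  · have : i = j := by omega
    subst this
    simpa [h4] using h1

variable (E)

/-- Walks of length `j + 1` all of whose inner vertices have out-degree less than `D`. -/
def Jw (D : ℕ) : ℕ → V → V → Prop
  | 0, x, y => (x, y) ∈ E
  | j + 1, x, y => ∃ z, Jw D j x z ∧ (Nout E z).card < D ∧ (z, y) ∈ E

/-- The tabulated pairs for length `j`. -/
def KT (D : ℕ) (j : ℕ) (x y : V) : Prop :=
  (Wk E j x y ∧ (D ≤ (Nout E x).card * (Nin E y).card ∨ D ≤ (Nout E y).card)) ∨
    ∃ i, j = i + 1 ∧ Jw E D i x y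

/-- Pairs accepted by exploring with budget `c`. -/
def Z (D : ℕ) : ℕ → ℕ → V → V → Prop
  | 0, _, x, y => KT E D 0 x y
  | j + 1, c, x, y => KT E D (j + 1) x y ∨
      ((∃ a < c + 1, ∃ z ∈ (if Nat.log 2 (Nout E x).card = a then Nout E x else ∅),
        Z D j (c - a) z y) ∨
      (∃ b < c + 1, ∃ z ∈ (if Nat.log 2 (Nin E y).card = b then Nin E y else ∅),
        Z D j (c - b) x z))

variable {E}

theorem Jw.wk {D : ℕ} {j : ℕ} {x y : V} (h : Jw E D j x y) : Wk E (j + 1) x y := by
  induction j generalizing y with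
  | zero => exact Wk.cons h (Wk.refl y)
  | succ j ih =>
    obtain ⟨z, h1, _, h3⟩ := h
    exact (ih h1).snoc h3

theorem KT.wk {D : ℕ} {j : ℕ} {x y : V} (h : KT E D j x y) : Wk E j x y := by
  rcases h with ⟨h, _⟩ | ⟨i, rfl, h⟩
  · exact h
  · exact h.wk

theorem Z.wk {D : ℕ} {j c : ℕ} {x y : V} (h : Z E D j c x y) : Wk E j x y := by
  induction j generalizing c x y with
  | zero => exact KT.wk h
  | succ j ih =>
    rcases h with h | ⟨a, _, z, hz, h⟩ | ⟨a, _, z, hz, h⟩
    · exact h.wk
    · refine Wk.cons ?_ (ih h)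
      split_ifs at hz
      · simpa [Nout] using hz
      · simp at hz
    · refine Wk.snoc (ih h) ?_
      split_ifs at hz
      · simpa [Nin] using hz
      · simp at hz

theorem Z.of_kt {D j c : ℕ} {x y : V} (h : KT E D j x y) : Z E D j c x y := by
  cases j with
  | zero => exact h
  | succ j => exact Or.inl h

theorem Z.of_walk_right {D : ℕ} (p : ℕ → V) (l' : ℕ) : ∀ (j c s : ℕ),
    (∀ i, s ≤ i → i < s + j → (p i, p (i + 1)) ∈ E) → l' ≤ j →
    ∑ i ∈ range l', Nat.log 2 (Nin E (p (s + j - i))).card ≤ c →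
    KT E D (j - l') (p s) (p (s + j - l')) → Z E D j c (p s) (p (s + j)) := by
  induction l' with
  | zero =>
    intro j c s _ _ _ h
    exact Z.of_kt h
  | succ l' ih =>
    intro j c s hE hl hc hK
    obtain ⟨j', rfl⟩ : ∃ j', j = j' + 1 := ⟨j - 1, by omega⟩
    rw [sum_range_succ'] at hc
    right; right
    simp only [Nat.sub_zero] at hc
    refine ⟨Nat.log 2 (Nin E (p (s + (j' + 1)))).card, by omega, p (s + j'), ?_, ?_⟩
    · rw [if_pos rfl]
      have := hE (s + j') (by omega) (by omega)
      simp only [Nin, mem_filter, mem_univ, true_and]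
      exact this
    · apply ih
      · intro i h1 h2
        exact hE i h1 (by omega)
      · omega
      · have : ∀ i ∈ range l', Nat.log 2 (Nin E (p (s + j' - i))).card =
            Nat.log 2 (Nin E (p (s + (j' + 1) - (i + 1)))).card := by
          intro i hi
          rw [show s + (j' + 1) - (i + 1) = s + j' - i by omega]
        rw [sum_congr rfl this]
        omega
      · rw [show j' - l' = j' + 1 - (l' + 1) by omega,
          show s + j' - l' = s + (j' + 1) - (l' + 1) by omega]
        exact hK

theorem Z.of_walk {D : ℕ} (p : ℕ → V) (l l' : ℕ) : ∀ (j c s : ℕ),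
    (∀ i, s ≤ i → i < s + j → (p i, p (i + 1)) ∈ E) → l + l' ≤ j →
    ∑ i ∈ range l, Nat.log 2 (Nout E (p (s + i))).card +
      ∑ i ∈ range l', Nat.log 2 (Nin E (p (s + j - i))).card ≤ c →
    KT E D (j - l - l') (p (s + l)) (p (s + j - l')) → Z E D j c (p s) (p (s + j)) := by
  induction l with
  | zero =>
    intro j c s hE hl hc hK
    apply Z.of_walk_right p l' j c s hE (by omega) (by simpa using hc)
    simpa using hK
  | succ l ih =>
    intro j c s hE hl hc hK
    obtain ⟨j', rfl⟩ : ∃ j', j = j' + 1 := ⟨j - 1, by omega⟩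
    rw [sum_range_succ'] at hc
    right; left
    simp only [Nat.add_zero] at hc
    refine ⟨Nat.log 2 (Nout E (p s)).card, by omega, p (s + 1), ?_, ?_⟩
    · rw [if_pos rfl]
      have := hE s (by omega) (by omega)
      simp only [Nout, mem_filter, mem_univ, true_and]
      exact this
    · have h1 := ih j' (c - Nat.log 2 (Nout E (p s)).card) (s + 1) ?_ (by omega) ?_ ?_
      · rw [show s + (j' + 1) = s + 1 + j' by omega]
        exact h1
      · intro i h1 h2
        exact hE i (by omega) (by omega)
      · have e1 : ∀ i ∈ range l, Nat.log 2 (Nout E (p (s + 1 + i))).card =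
            Nat.log 2 (Nout E (p (s + (i + 1)))).card := by
          intro i hi
          rw [show s + 1 + i = s + (i + 1) by omega]
        rw [sum_congr rfl e1]
        have e2 : ∀ i ∈ range l', Nat.log 2 (Nin E (p (s + 1 + j' - i))).card =
            Nat.log 2 (Nin E (p (s + (j' + 1) - i))).card := by
          intro i hi
          rw [show s + 1 + j' - i = s + (j' + 1) - i by omega]
        rw [sum_congr rfl e2]
        omega
      · rw [show j' - l - l' = j' + 1 - (l + 1) - l' by omega,
          show s + 1 + l = s + (l + 1) by omega,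
          show s + 1 + j' - l' = s + (j' + 1) - l' by omega]
        exact hK

theorem Jw.of_walk {D : ℕ} (p : ℕ → V) (j : ℕ)
    (hE : ∀ i < j + 1, (p i, p (i + 1)) ∈ E)
    (hD : ∀ i, 1 ≤ i → i ≤ j → (Nout E (p i)).card < D) : Jw E D j (p 0) (p (j + 1)) := by
  induction j with
  | zero => exact hE 0 (by omega)
  | succ j ih =>
    exact ⟨p (j + 1), ih (fun i hi => hE i (by omega)) (fun i h1 h2 => hD i h1 (by omega)),
      hD (j + 1) (by omega) le_rfl, hE (j + 1) (by omega)⟩

/-- Completeness of the exploration. -/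
theorem Z.complete {θ k c : ℕ} (hk : 1 ≤ k)
    (hc : ∀ P Q : ℕ, 1 ≤ P → 1 ≤ Q → P + Q = k → θ * (P * Q) ≤ c * (P + Q)) {u v : V}
    (h : Wk E k u v) : Z E (2 ^ θ) k c u v := by
  obtain ⟨p, rfl, rfl, hE⟩ := h
  by_cases hint : ∀ i, 1 ≤ i → i ≤ k - 1 → (Nout E (p i)).card < 2 ^ θ
  · obtain ⟨k', rfl⟩ : ∃ k', k = k' + 1 := ⟨k - 1, by omega⟩
    exact Z.of_kt (Or.inr ⟨k', rfl, Jw.of_walk p k' hE (by simpa using hint)⟩)
  · push Not at hint
    obtain ⟨i0, hi1, hi2, hi3⟩ := hint
    obtain ⟨l, hl, l', hl', hcost, hterm⟩ := balance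
      (fun i => Nat.log 2 (Nout E (p i)).card) (fun i => Nat.log 2 (Nin E (p (k - i))).card)
      hi1 (show 1 ≤ k - i0 by omega) (hc i0 (k - i0) hi1 (by omega) (by omega))
    have hout : ∀ i < k, 1 ≤ (Nout E (p i)).card := by
      intro i hi
      apply Finset.card_pos.mpr
      exact ⟨p (i + 1), by simpa [Nout] using hE i hi⟩
    have hin : ∀ i, 1 ≤ i → i ≤ k → 1 ≤ (Nin E (p i)).card := by
      intro i hi hi'
      apply Finset.card_pos.mpr
      refine ⟨p (i - 1), ?_⟩
      have := hE (i - 1) (by omega)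
      rw [Nat.sub_add_cancel hi] at this
      simpa [Nin] using this
    have := Z.of_walk (E := E) (D := 2 ^ θ) p l l' k c 0 (fun i _ hi => hE i (by omega))
      (by omega) (by simpa using hcost) ?_
    · simpa using this
    · simp only [Nat.zero_add]
      left
      refine ⟨⟨fun i => p (l + i), by simp, ?_, ?_⟩, ?_⟩
      · simp only
        congr 1
        omega
      · intro i hi
        exact hE (l + i) (by omega)
      · rcases hterm with h | h | h
        · left
          rw [h]
          have := hin (k - l') (by omega) (by omega)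
          calc 2 ^ θ ≤ (Nout E (p i0)).card := hi3
            _ = (Nout E (p i0)).card * 1 := by ring
            _ ≤ _ := Nat.mul_le_mul_left _ this
        · right
          rw [h, show k - (k - i0) = i0 by omega]
          exact hi3
        · left
          have h1 := hout l (by omega)
          have h2 := hin (k - l') (by omega) (by omega)
          calc 2 ^ θ ≤ 2 ^ (Nat.log 2 (Nout E (p l)).card +
                Nat.log 2 (Nin E (p (k - l'))).card) := Nat.pow_le_pow_right (by norm_num) h
            _ = 2 ^ (Nat.log 2 (Nout E (p l)).card) *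
                2 ^ (Nat.log 2 (Nin E (p (k - l'))).card) := by rw [pow_add]
            _ ≤ _ := Nat.mul_le_mul (Nat.pow_log_le_self 2 (by omega))
                (Nat.pow_log_le_self 2 (by omega))

end graph

end Pool.Agent.H440R5
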