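import Pool.Agent.H440R5.Count

/-!
# The data structure for bounded-length reachability, in explicit form
-/

namespace Pool.Agent.H440R5

open Finset

/-- `⌊log₂ n⌋ + 1`. -/
def lg (n : ℕ) : ℕ := Nat.log 2 n + 1

/-- The budget for exploration. -/
def bud (k t : ℕ) : ℕ := t * (k ^ 2 / 4) / k + 1

/-- The number of probes. -/
def Rf (k t n : ℕ) : ℕ := (9 * lg n) ^ (k + 1) * 2 ^ bud k t

/-- The number of table entries. -/
def Mf (k C t n : ℕ) : ℕ := (9 * lg n) ^ (k + 1) * ((C + 3) ^ 2 * n ^ 2 / 2 ^ t)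

/-- The length of codes. -/
def lf (k n : ℕ) : ℕ := 6 * (k + 1) * lg n

/-- The query time. -/
def Tf (k t n : ℕ) : ℕ := 13 + 10 * (Rf k t n * lf k n)

/-- The space. -/
def Sf (k C t n : ℕ) : ℕ :=
  16 * (1 + lf k n * (1 + Mf k C t n) + 1) + 4 * (Rf k t n * lf k n * n) + 16 +
    Rf k t n * lf k n

theorem one_le_lg (n : ℕ) : 1 ≤ lg n := by unfold lg; omega

theorem lt_two_pow_lg (n : ℕ) : n < 2 ^ lg n := Nat.lt_pow_succ_log_self (by norm_num) n

theorem nine_lg (n : ℕ) : 9 * lg n ≤ 2 ^ (5 * lg n) := by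
  have h1 := one_le_lg n
  have h2 : lg n < 2 ^ lg n := Nat.lt_two_pow_self
  have h3 : 2 ^ 4 ≤ 2 ^ (4 * lg n) := Nat.pow_le_pow_right (by norm_num) (by omega)
  calc 9 * lg n ≤ 2 ^ 4 * 2 ^ lg n := by nlinarith
    _ ≤ 2 ^ (4 * lg n) * 2 ^ lg n := Nat.mul_le_mul_right _ h3
    _ = 2 ^ (5 * lg n) := by rw [← pow_add]; congr 1; ring

theorem bud_spec {k t : ℕ} (hk : 1 ≤ k) (P Q : ℕ) (h : P + Q = k) :
    t * (P * Q) ≤ bud k t * (P + Q) := by
  have h1 : P * Q ≤ k ^ 2 / 4 := by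
    rw [Nat.le_div_iff_mul_le (by norm_num), ← h]
    rcases Nat.le_total P Q with h' | h'
    · obtain ⟨d, rfl⟩ := Nat.exists_eq_add_of_le h'
      nlinarith [Nat.zero_le (d ^ 2)]
    · obtain ⟨d, rfl⟩ := Nat.exists_eq_add_of_le h'
      nlinarith [Nat.zero_le (d ^ 2)]
  have h2 : t * (P * Q) ≤ t * (k ^ 2 / 4) := Nat.mul_le_mul_left _ h1
  rw [h]
  unfold bud
  have h3 := Nat.lt_mul_div_succ (t * (k ^ 2 / 4)) (show 0 < k by omega)
  rw [mul_comm k] at h3
  omega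

theorem bud_le {k t n : ℕ} (ht : (2 ^ t) ^ k ≤ n) :
    bud k t ≤ lg n := by
  have h1 : t * k ≤ Nat.log 2 n := by
    apply Nat.le_log_of_pow_le (by norm_num)
    rw [pow_mul]; exact ht
  have h2 : t * (k ^ 2 / 4) / k ≤ t * k := by
    apply Nat.div_le_of_le_mul
    have : k ^ 2 / 4 ≤ k ^ 2 := Nat.div_le_self _ _
    calc t * (k ^ 2 / 4) ≤ t * k ^ 2 := Nat.mul_le_mul_left _ this
      _ = k * (t * k) := by ring
  unfold bud lg
  omega

/-- The explicit space/time tradeoff. -/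
theorem oracle_nat (k C : ℕ) (hk : 1 ≤ k) (t : ℕ → ℕ)
    (ht : ∀ n, 1 ≤ n → (2 ^ t n) ^ k ≤ n) :
    HasOracle k C (fun n => Sf k C (t n) n) (fun n => Tf k (t n) n) := by
  refine ⟨prog, 8 + 3 * (6 * (k + 1) + (C + 3) ^ 2 + 2), fun n hn E hE => ?_⟩
  have hL := one_le_lg n
  have hn2 := lt_two_pow_lg n
  have hbud := bud_le (ht n hn)
  have h9 := nine_lg n
  have hcard : (loops E).card ≤ (C + 1) * n := by
    have := card_loops E
    nlinarith
  have hM0 : ∀ j ≤ k, {p : Fin n × Fin n | KT (loops E) (2 ^ t n) j p.1 p.2}.ncard ≤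
      (C + 3) ^ 2 * n ^ 2 / 2 ^ t n := by
    intro j hj
    have h1 := card_KT (loops E) (D := 2 ^ t n) (k := k) (j := j) Nat.one_le_two_pow hj
      (by rw [Fintype.card_fin]; exact ht n hn)
    rw [Fintype.card_fin] at h1
    rw [Nat.le_div_iff_mul_le (by positivity), mul_comm]
    refine h1.trans ?_
    have h2 : (loops E).card ^ 2 ≤ ((C + 1) * n) ^ 2 := Nat.pow_le_pow_left hcard 2
    have h3 : n * (loops E).card ≤ n * ((C + 1) * n) := Nat.mul_le_mul_left _ hcard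
    nlinarith [Nat.zero_le (C * n ^ 2)]
  have hrep := rep_walk (loops E) hk (fun P Q _ _ h => bud_spec hk P Q h) hM0
  rw [Fintype.card_fin] at hrep
  have hΛ : (4 * (bud k (t n) + 1) + 1) ^ (k + 1) ≤ (9 * lg n) ^ (k + 1) :=
    Nat.pow_le_pow_left (by omega) _
  have hrep' : Rep (Wk (loops E) k) (Rf k (t n) n) (Mf k C (t n) n)
      ((9 * lg n) ^ (k + 1) * (n + 1)) := by
    refine hrep.mono ?_ ?_ ?_
    · exact Nat.mul_le_mul_right _ hΛ
    · exact Nat.mul_le_mul_right _ hΛ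
    · exact Nat.mul_le_mul_right _ hΛ
  have h9k : (9 * lg n) ^ (k + 1) ≤ 2 ^ (5 * (k + 1) * lg n) := by
    calc (9 * lg n) ^ (k + 1) ≤ (2 ^ (5 * lg n)) ^ (k + 1) := Nat.pow_le_pow_left h9 _
      _ = 2 ^ (5 * (k + 1) * lg n) := by rw [← pow_mul]; congr 1; ring
  have hA : (9 * lg n) ^ (k + 1) * (n + 1) ≤ 2 ^ lf k n := by
    calc (9 * lg n) ^ (k + 1) * (n + 1) ≤ 2 ^ (5 * (k + 1) * lg n) * 2 ^ lg n :=
          Nat.mul_le_mul h9k hn2
      _ = 2 ^ (5 * (k + 1) * lg n + lg n) := by rw [← pow_add]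
      _ ≤ 2 ^ lf k n := by
          apply Nat.pow_le_pow_right (by norm_num)
          unfold lf
          nlinarith
  have hℓ : 0 < lf k n := by unfold lf; positivity
  obtain ⟨Mem, m1, m2, m3⟩ := hrep'.oracle hℓ hA (S := Sf k C (t n) n)
    (by unfold Sf; omega) (by unfold Sf; omega)
  -- the word size
  have hw : 2 * Sf k C (t n) n < 2 ^ ((8 + 3 * (6 * (k + 1) + (C + 3) ^ 2 + 2)) * lg n) := by
    set G := (6 * (k + 1) + (C + 3) ^ 2 + 2) * lg n with hG
    have g1 : n ≤ 2 ^ G := by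
      refine hn2.le.trans (Nat.pow_le_pow_right (by norm_num) ?_)
      rw [hG]
      exact Nat.le_mul_of_pos_left _ (by positivity)
    have g2 : lf k n ≤ 2 ^ G := by
      refine (Nat.lt_two_pow_self (n := lf k n)).le.trans
        (Nat.pow_le_pow_right (by norm_num) ?_)
      rw [hG]
      unfold lf
      exact Nat.mul_le_mul_right _ (by omega)
    have g3 : Rf k (t n) n ≤ 2 ^ G := by
      unfold Rf
      calc (9 * lg n) ^ (k + 1) * 2 ^ bud k (t n) ≤ 2 ^ (5 * (k + 1) * lg n) * 2 ^ lg n :=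
            Nat.mul_le_mul h9k (Nat.pow_le_pow_right (by norm_num) hbud)
        _ = 2 ^ (5 * (k + 1) * lg n + lg n) := by rw [← pow_add]
        _ ≤ 2 ^ G := by
            apply Nat.pow_le_pow_right (by norm_num)
            rw [hG]
            nlinarith [Nat.zero_le ((C + 3) ^ 2 * lg n)]
    have g4 : Mf k C (t n) n ≤ 2 ^ G := by
      unfold Mf
      have e1 : (C + 3) ^ 2 ≤ 2 ^ ((C + 3) ^ 2 * lg n) :=
        (Nat.lt_two_pow_self (n := (C + 3) ^ 2)).le.trans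
          (Nat.pow_le_pow_right (by norm_num) (Nat.le_mul_of_pos_right _ hL))
      have e2 : n ^ 2 ≤ 2 ^ (2 * lg n) := by
        calc n ^ 2 ≤ (2 ^ lg n) ^ 2 := Nat.pow_le_pow_left hn2.le 2
          _ = 2 ^ (2 * lg n) := by rw [← pow_mul]; congr 1; ring
      have e3 : (C + 3) ^ 2 * n ^ 2 / 2 ^ t n ≤ 2 ^ ((C + 3) ^ 2 * lg n) * 2 ^ (2 * lg n) :=
        (Nat.div_le_self _ _).trans (Nat.mul_le_mul e1 e2)
      calc (9 * lg n) ^ (k + 1) * ((C + 3) ^ 2 * n ^ 2 / 2 ^ t n)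
          ≤ 2 ^ (5 * (k + 1) * lg n) * (2 ^ ((C + 3) ^ 2 * lg n) * 2 ^ (2 * lg n)) :=
            Nat.mul_le_mul h9k e3
        _ = 2 ^ (5 * (k + 1) * lg n + ((C + 3) ^ 2 * lg n + 2 * lg n)) := by
            rw [← pow_add, ← pow_add]
        _ ≤ 2 ^ G := by
            apply Nat.pow_le_pow_right (by norm_num)
            rw [hG]
            nlinarith [Nat.zero_le ((k + 1) * lg n)]
    have g5 : 1 ≤ 2 ^ G := Nat.one_le_two_pow
    set x := 2 ^ G with hx
    have b1 : lf k n * (1 + Mf k C (t n) n) ≤ x * (1 + x) := Nat.mul_le_mul g2 (by omega)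
    have b2 : Rf k (t n) n * lf k n ≤ x * x := Nat.mul_le_mul g3 g2
    have b3 : Rf k (t n) n * lf k n * n ≤ x * x * x := Nat.mul_le_mul b2 g1
    have b4 : x ≤ x * x * x := by nlinarith [Nat.mul_le_mul g5 g5]
    have b5 : x * x ≤ x * x * x := Nat.le_mul_of_pos_right _ g5
    have b6 : 1 ≤ x * x * x := by omega
    have b7 : 2 * Sf k C (t n) n ≤ 200 * (x * x * x) := by
      unfold Sf
      have : x * (1 + x) = x + x * x := by ring
      omega
    have b8 : 2 ^ ((8 + 3 * (6 * (k + 1) + (C + 3) ^ 2 + 2)) * lg n) =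
        2 ^ (8 * lg n) * (x * x * x) := by
      rw [hx, ← pow_add, ← pow_add, ← pow_add]
      congr 1
      rw [hG]
      ring
    have b9 : 2 ^ 8 ≤ 2 ^ (8 * lg n) := Nat.pow_le_pow_right (by norm_num) (by omega)
    rw [b8]
    calc 2 * Sf k C (t n) n ≤ 200 * (x * x * x) := b7
      _ < 2 ^ 8 * (x * x * x) := by
          apply Nat.mul_lt_mul_of_pos_right (by norm_num)
          omega
      _ ≤ _ := Nat.mul_le_mul_right _ b9
  refine ⟨Mem, m1, fun a => lt_of_le_of_lt (m2 a) hw, fun u v => ?_⟩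
  obtain ⟨r1, r2, r3⟩ := m3 _ hw (Tf k (t n) n) (by unfold Tf; omega) u v
  have hiff : PathWithin E k u v ↔ Wk (loops E) k u v := by
    rw [pathWithin_iff, walk_loops]
  refine ⟨_, rfl, r1, fun h => r2 (hiff.mp h), fun h => r3 (fun h' => h (hiff.mpr h'))⟩

end Pool.Agent.H440R5
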