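import Mathlib

/-!
# Word RAM oracles for bounded-length reachability: the model

A standard word RAM with `w`-bit words and unit cost instructions, the data structures
(memory images) for `k`-reachability on sparse digraphs, and the conjectured space/time tradeoff.
-/

namespace Pool.Agent.H440R5

/-- Instructions of the word RAM. Registers, constants and jump targets are natural numbers;
every value written is reduced modulo `2 ^ w`. -/
inductive Instr : Type
  /-- `R[d] := c` -/
  | const (d c : ℕ)
  /-- `R[d] := R[a]` -/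
  | move (d a : ℕ)
  /-- `R[d] := R[a] + R[b]` -/
  | add (d a b : ℕ)
  /-- `R[d] := R[a] - R[b]` (modulo `2 ^ w`) -/
  | sub (d a b : ℕ)
  /-- `R[d] := R[a] * R[b]` -/
  | mul (d a b : ℕ)
  /-- `R[d] := R[a] / R[b]` -/
  | div (d a b : ℕ)
  /-- `R[d] := R[a] % R[b]` -/
  | mod (d a b : ℕ)
  /-- bitwise and -/
  | land (d a b : ℕ)
  /-- bitwise or -/
  | lor (d a b : ℕ)
  /-- bitwise exclusive or -/
  | xor (d a b : ℕ)
  /-- left shift of `R[a]` by `R[b]` -/
  | shl (d a b : ℕ)
  /-- right shift of `R[a]` by `R[b]` -/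
  | shr (d a b : ℕ)
  /-- `R[d] := Mem[R[a]]` -/
  | load (d a : ℕ)
  /-- `Mem[R[a]] := R[b]` -/
  | store (a b : ℕ)
  /-- jump to `l` -/
  | jmp (l : ℕ)
  /-- jump to `l` if `R[a] = 0` -/
  | jz (a l : ℕ)
  /-- jump to `l` if `R[a] < R[b]` -/
  | jlt (a b l : ℕ)
  /-- stop -/
  | halt

/-- A configuration: program counter, registers and memory. -/
structure Config where
  /-- program counter -/
  pc : ℕ
  /-- registers -/
  reg : ℕ → ℕ
  /-- memory -/
  mem : ℕ → ℕ

/-- Write `v mod 2 ^ w` into register `d` and go to the next instruction. -/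
def Config.put (w : ℕ) (s : Config) (d v : ℕ) : Config :=
  ⟨s.pc + 1, Function.update s.reg d (v % 2 ^ w), s.mem⟩

/-- One step of the program `P` on a word RAM with `w`-bit words. A machine whose program
counter points to `halt` (or outside of the program) no longer moves. -/
def step (w : ℕ) (P : List Instr) (s : Config) : Config :=
  match P[s.pc]? with
  | none => s
  | some .halt => s
  | some (.const d c) => s.put w d c
  | some (.move d a) => s.put w d (s.reg a)
  | some (.add d a b) => s.put w d (s.reg a + s.reg b)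
  | some (.sub d a b) => s.put w d (s.reg a + (2 ^ w - s.reg b))
  | some (.mul d a b) => s.put w d (s.reg a * s.reg b)
  | some (.div d a b) => s.put w d (s.reg a / s.reg b)
  | some (.mod d a b) => s.put w d (s.reg a % s.reg b)
  | some (.land d a b) => s.put w d (s.reg a &&& s.reg b)
  | some (.lor d a b) => s.put w d (s.reg a ||| s.reg b)
  | some (.xor d a b) => s.put w d (s.reg a ^^^ s.reg b)
  | some (.shl d a b) => s.put w d (s.reg a <<< s.reg b)
  | some (.shr d a b) => s.put w d (s.reg a >>> s.reg b)
  | some (.load d a) => s.put w d (s.mem (s.reg a))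
  | some (.store a b) =>
      ⟨s.pc + 1, s.reg, Function.update s.mem (s.reg a) (s.reg b % 2 ^ w)⟩
  | some (.jmp l) => ⟨l, s.reg, s.mem⟩
  | some (.jz a l) => ⟨if s.reg a = 0 then l else s.pc + 1, s.reg, s.mem⟩
  | some (.jlt a b l) => ⟨if s.reg a < s.reg b then l else s.pc + 1, s.reg, s.mem⟩

/-- The configuration in which a query `(u, v)` starts: `u` and `v` are in the registers `0`
and `1`, all other registers are `0`, and the memory holds the data structure `M`. -/
def queryConfig (M : ℕ → ℕ) (u v : ℕ) : Config :=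
  ⟨0, fun i => if i = 0 then u else if i = 1 then v else 0, M⟩

/-- In the digraph with vertex set `Fin n` and edge set `E` there is a directed path
`p 0 = u, p 1, ..., p j = v` with `j ≤ k` edges (and distinct vertices). -/
def PathWithin {n : ℕ} (E : Finset (Fin n × Fin n)) (k : ℕ) (u v : Fin n) : Prop :=
  ∃ j ≤ k, ∃ p : ℕ → Fin n, p 0 = u ∧ p j = v ∧ (∀ i < j, (p i, p (i + 1)) ∈ E) ∧
    Set.InjOn p (Set.Iic j)

/-- `HasOracle k C S T`: on the word RAM with words of `c * (⌊log₂ n⌋ + 1)` bits (for some
constant `c`) there is a data structure for `k`-reachability on digraphs with `n` vertices and at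
most `C * n` edges which occupies `S n` words and has worst-case query time `T n`. That is, there
is one program `P` such that for every such graph there is a memory image `M` of `S n` words on
which, for every query `(u, v)`, the program `P` halts after at most `T n` steps with the correct
answer (`1` or `0`) in register `0`. -/
def HasOracle (k C : ℕ) (S T : ℕ → ℕ) : Prop :=
  ∃ (P : List Instr) (c : ℕ), ∀ n : ℕ, 1 ≤ n → ∀ E : Finset (Fin n × Fin n), E.card ≤ C * n →
    ∃ M : ℕ → ℕ, (∀ a, S n ≤ a → M a = 0) ∧ (∀ a, M a < 2 ^ (c * (Nat.log 2 n + 1))) ∧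
      ∀ u v : Fin n, ∃ s : Config,
        s = (step (c * (Nat.log 2 n + 1)) P)^[T n] (queryConfig M u v) ∧
        P[s.pc]? = some Instr.halt ∧
        (PathWithin E k u v → s.reg 0 = 1) ∧ (¬ PathWithin E k u v → s.reg 0 = 0)

/-- The conjectured tradeoff for a fixed `k`: there is `δ > 0` such that every data structure for
`k`-reachability on sparse digraphs (at most `C * n` edges, for a suitable constant `C`) with
query time `T ≤ n ^ δ` satisfies `S * T ^ (2 / (k - 1)) ≥ n ^ 2 / (log n) ^ c` for some
constant `c` and all large `n`. -/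
def TradeoffAt (k : ℕ) : Prop :=
  ∃ δ : ℝ, 0 < δ ∧ ∃ C : ℕ, ∀ S T : ℕ → ℕ, HasOracle k C S T →
    (∀ᶠ n : ℕ in Filter.atTop, (T n : ℝ) ≤ (n : ℝ) ^ δ) →
    ∃ c : ℝ, 0 < c ∧ ∀ᶠ n : ℕ in Filter.atTop,
      (n : ℝ) ^ (2 : ℝ) / (Real.log n) ^ c ≤ (S n : ℝ) * (T n : ℝ) ^ ((2 : ℝ) / ((k : ℝ) - 1))

/-- The statement posed in Q1. -/
def TradeoffConjecture : Prop := ∀ k : ℕ, 2 ≤ k → TradeoffAt k

end Pool.Agent.H440R5
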