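import Pool.Agent.H440R5.Model

/-!
# A fixed word RAM program which simulates a finite automaton on two streams
-/

namespace Pool.Agent.H440R5

/-- The query program: it reads two streams of letters (belonging to the two query vertices) and
follows the transition table of an automaton stored in memory. -/
def prog : List Instr :=
  [ .const 9 4, .const 10 1, .load 3 2, .load 5 9, .mul 6 0 3, .mul 6 6 9, .add 6 6 10,
    .mul 7 1 3, .mul 7 7 9, .add 7 7 10, .add 7 7 10,
    .jlt 8 3 14, .load 0 5, .halt,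
    .load 11 6, .load 12 7, .add 11 11 12, .add 11 11 5, .load 5 11, .add 6 6 9, .add 7 7 9,
    .add 8 8 10, .jmp 11 ]

/-- The loop invariant. -/
structure LInv (M : ℕ → ℕ) (N j x y i : ℕ) (s : Config) : Prop where
  hpc : s.pc = 11
  hmem : s.mem = M
  h3 : s.reg 3 = N
  h5 : s.reg 5 = 16 * j
  h6 : s.reg 6 = 4 * (x + i) + 1
  h7 : s.reg 7 = 4 * (y + i) + 2
  h8 : s.reg 8 = i
  h9 : s.reg 9 = 4
  h10 : s.reg 10 = 1

theorem step_halt {w : ℕ} {P : List Instr} {s : Config} (h : P[s.pc]? = some Instr.halt) :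
    step w P s = s := by
  unfold step
  rw [h]

theorem iterate_halt {w : ℕ} {P : List Instr} {s : Config} (h : P[s.pc]? = some Instr.halt)
    (t : ℕ) : (step w P)^[t] s = s := by
  induction t with
  | zero => rfl
  | succ t ih => rw [Function.iterate_succ_apply, step_halt h, ih]

theorem loop_step {w N j j' x y i lx ly : ℕ} {M : ℕ → ℕ} {s : Config}
    (h : LInv M N j x y i s) (hi : i < N)
    (hlx : M (4 * (x + i) + 1) = lx) (hly : M (4 * (y + i) + 2) = ly)
    (htr : M (lx + ly + 16 * j) = 16 * j')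
    (hb1 : lx + ly + 16 * j < 2 ^ w) (hb2 : 16 * j' < 2 ^ w)
    (hb3 : 4 * (x + i) + 5 < 2 ^ w) (hb4 : 4 * (y + i) + 6 < 2 ^ w) :
    LInv M N j' x y (i + 1) ((step w prog)^[10] s) := by
  obtain ⟨pc, r, m⟩ := s
  obtain ⟨hpc, hmem, h3, h5, h6, h7, h8, h9, h10⟩ := h
  simp only at hpc hmem h3 h5 h6 h7 h8 h9 h10
  subst hpc hmem
  have hb5 : lx < 2 ^ w := by omega
  have hb6 : ly < 2 ^ w := by omega
  have hb7 : lx + ly < 2 ^ w := by omega
  have hb8 : i + 1 < 2 ^ w := by omega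
  have e1 : step w prog ⟨11, r, m⟩ = ⟨14, r, m⟩ := by
    simp [step, prog, h8, h3, hi]
  have key : (step w prog)^[10] ⟨11, r, m⟩ =
      (step w prog)^[9] ⟨14, r, m⟩ := by
    rw [Function.iterate_succ_apply, e1]
  rw [key]
  simp only [Function.iterate_succ_apply, Function.iterate_zero, id]
  have e2 : step w prog ⟨14, r, m⟩ = ⟨15, Function.update r 11 lx, m⟩ := by
    simp [step, prog, Config.put, h6, hlx, Nat.mod_eq_of_lt hb5]
  rw [e2]
  have e3 : step w prog ⟨15, Function.update r 11 lx, m⟩ =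
      ⟨16, Function.update (Function.update r 11 lx) 12 ly, m⟩ := by
    simp [step, prog, Config.put, h7, hly, Nat.mod_eq_of_lt hb6]
  rw [e3]
  set r2 := Function.update (Function.update r 11 lx) 12 ly with hr2
  have e4 : step w prog ⟨16, r2, m⟩ = ⟨17, Function.update r2 11 (lx + ly), m⟩ := by
    simp [step, prog, Config.put, hr2, Nat.mod_eq_of_lt hb7]
  rw [e4]
  set r3 := Function.update r2 11 (lx + ly) with hr3
  have e5 : step w prog ⟨17, r3, m⟩ =
      ⟨18, Function.update r3 11 (lx + ly + 16 * j), m⟩ := by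
    simp [step, prog, Config.put, hr3, hr2, h5, Nat.mod_eq_of_lt hb1]
  rw [e5]
  set r4 := Function.update r3 11 (lx + ly + 16 * j) with hr4
  have e6 : step w prog ⟨18, r4, m⟩ = ⟨19, Function.update r4 5 (16 * j'), m⟩ := by
    simp [step, prog, Config.put, hr4, htr, Nat.mod_eq_of_lt hb2]
  rw [e6]
  set r5 := Function.update r4 5 (16 * j') with hr5
  have e7 : step w prog ⟨19, r5, m⟩ =
      ⟨20, Function.update r5 6 (4 * (x + i) + 1 + 4), m⟩ := by
    have : r5 6 = 4 * (x + i) + 1 := by simp [hr5, hr4, hr3, hr2, h6]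
    have h9' : r5 9 = 4 := by simp [hr5, hr4, hr3, hr2, h9]
    have hb : 4 * (x + i) + 1 + 4 < 2 ^ w := by omega
    simp [step, prog, Config.put, this, h9', Nat.mod_eq_of_lt hb]
  rw [e7]
  set r6 := Function.update r5 6 (4 * (x + i) + 1 + 4) with hr6
  have e8 : step w prog ⟨20, r6, m⟩ =
      ⟨21, Function.update r6 7 (4 * (y + i) + 2 + 4), m⟩ := by
    have : r6 7 = 4 * (y + i) + 2 := by simp [hr6, hr5, hr4, hr3, hr2, h7]
    have h9' : r6 9 = 4 := by simp [hr6, hr5, hr4, hr3, hr2, h9]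
    have hb : 4 * (y + i) + 2 + 4 < 2 ^ w := by omega
    simp [step, prog, Config.put, this, h9', Nat.mod_eq_of_lt hb]
  rw [e8]
  set r7 := Function.update r6 7 (4 * (y + i) + 2 + 4) with hr7
  have e9 : step w prog ⟨21, r7, m⟩ = ⟨22, Function.update r7 8 (i + 1), m⟩ := by
    have : r7 8 = i := by simp [hr7, hr6, hr5, hr4, hr3, hr2, h8]
    have h10' : r7 10 = 1 := by simp [hr7, hr6, hr5, hr4, hr3, hr2, h10]
    simp [step, prog, Config.put, this, h10', Nat.mod_eq_of_lt hb8]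
  rw [e9]
  set r8 := Function.update r7 8 (i + 1) with hr8
  have e10 : step w prog ⟨22, r8, m⟩ = ⟨11, r8, m⟩ := by
    simp [step, prog]
  rw [e10]
  constructor
  · rfl
  · rfl
  · simp [hr8, hr7, hr6, hr5, hr4, hr3, hr2, h3]
  · simp [hr8, hr7, hr6, hr5]
  · simp only [hr8, hr7, hr6]
    simp
    omega
  · simp only [hr8, hr7]
    simp
    omega
  · simp [hr8]
  · simp [hr8, hr7, hr6, hr5, hr4, hr3, hr2, h9]
  · simp [hr8, hr7, hr6, hr5, hr4, hr3, hr2, h10]

theorem init_steps {w N j0 u v : ℕ} {M : ℕ → ℕ} (hM0 : M 0 = N) (hM4 : M 4 = 16 * j0)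
    (hb1 : 16 * j0 < 2 ^ w) (hb2 : 4 * (u * N) + 2 < 2 ^ w) (hb3 : 4 * (v * N) + 2 < 2 ^ w)
    (hb4 : N < 2 ^ w) (hb5 : 4 < 2 ^ w) :
    LInv M N j0 (u * N) (v * N) 0 ((step w prog)^[11] (queryConfig M u v)) := by
  simp only [Function.iterate_succ_apply, Function.iterate_zero, id, queryConfig]
  set r : ℕ → ℕ := fun i => if i = 0 then u else if i = 1 then v else 0 with hr
  have hb6 : 1 < 2 ^ w := by omega
  have e0 : step w prog ⟨0, r, M⟩ = ⟨1, Function.update r 9 4, M⟩ := by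
    simp [step, prog, Config.put, Nat.mod_eq_of_lt hb5]
  rw [e0]
  have e1 : step w prog ⟨1, Function.update r 9 4, M⟩ =
      ⟨2, Function.update (Function.update r 9 4) 10 1, M⟩ := by
    simp [step, prog, Config.put, Nat.mod_eq_of_lt hb6]
  rw [e1]
  set r1 := Function.update (Function.update r 9 4) 10 1 with hr1
  have e2 : step w prog ⟨2, r1, M⟩ = ⟨3, Function.update r1 3 N, M⟩ := by
    have : r1 2 = 0 := by simp [hr1, hr]
    simp [step, prog, Config.put, this, hM0, Nat.mod_eq_of_lt hb4]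
  rw [e2]
  set r2 := Function.update r1 3 N with hr2
  have e3 : step w prog ⟨3, r2, M⟩ = ⟨4, Function.update r2 5 (16 * j0), M⟩ := by
    have : r2 9 = 4 := by simp [hr2, hr1]
    simp [step, prog, Config.put, this, hM4, Nat.mod_eq_of_lt hb1]
  rw [e3]
  set r3 := Function.update r2 5 (16 * j0) with hr3
  have hbu : u * N < 2 ^ w := by omega
  have hbv : v * N < 2 ^ w := by omega
  have e4 : step w prog ⟨4, r3, M⟩ = ⟨5, Function.update r3 6 (u * N), M⟩ := by
    have h0 : r3 0 = u := by simp [hr3, hr2, hr1, hr]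
    have h3 : r3 3 = N := by simp [hr3, hr2]
    simp [step, prog, Config.put, h0, h3, Nat.mod_eq_of_lt hbu]
  rw [e4]
  set r4 := Function.update r3 6 (u * N) with hr4
  have e5 : step w prog ⟨5, r4, M⟩ = ⟨6, Function.update r4 6 (u * N * 4), M⟩ := by
    have h0 : r4 6 = u * N := by simp [hr4]
    have h3 : r4 9 = 4 := by simp [hr4, hr3, hr2, hr1]
    have hb : u * N * 4 < 2 ^ w := by omega
    simp [step, prog, Config.put, h0, h3, Nat.mod_eq_of_lt hb]
  rw [e5]
  set r5 := Function.update r4 6 (u * N * 4) with hr5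
  have e6 : step w prog ⟨6, r5, M⟩ = ⟨7, Function.update r5 6 (u * N * 4 + 1), M⟩ := by
    have h0 : r5 6 = u * N * 4 := by simp [hr5]
    have h3 : r5 10 = 1 := by simp [hr5, hr4, hr3, hr2, hr1]
    have hb : u * N * 4 + 1 < 2 ^ w := by omega
    simp [step, prog, Config.put, h0, h3, Nat.mod_eq_of_lt hb]
  rw [e6]
  set r6 := Function.update r5 6 (u * N * 4 + 1) with hr6
  have e7 : step w prog ⟨7, r6, M⟩ = ⟨8, Function.update r6 7 (v * N), M⟩ := by
    have h0 : r6 1 = v := by simp [hr6, hr5, hr4, hr3, hr2, hr1, hr]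
    have h3 : r6 3 = N := by simp [hr6, hr5, hr4, hr3, hr2]
    simp [step, prog, Config.put, h0, h3, Nat.mod_eq_of_lt hbv]
  rw [e7]
  set r7 := Function.update r6 7 (v * N) with hr7
  have e8 : step w prog ⟨8, r7, M⟩ = ⟨9, Function.update r7 7 (v * N * 4), M⟩ := by
    have h0 : r7 7 = v * N := by simp [hr7]
    have h3 : r7 9 = 4 := by simp [hr7, hr6, hr5, hr4, hr3, hr2, hr1]
    have hb : v * N * 4 < 2 ^ w := by omega
    simp [step, prog, Config.put, h0, h3, Nat.mod_eq_of_lt hb]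
  rw [e8]
  set r8 := Function.update r7 7 (v * N * 4) with hr8
  have e9 : step w prog ⟨9, r8, M⟩ = ⟨10, Function.update r8 7 (v * N * 4 + 1), M⟩ := by
    have h0 : r8 7 = v * N * 4 := by simp [hr8]
    have h3 : r8 10 = 1 := by simp [hr8, hr7, hr6, hr5, hr4, hr3, hr2, hr1]
    have hb : v * N * 4 + 1 < 2 ^ w := by omega
    simp [step, prog, Config.put, h0, h3, Nat.mod_eq_of_lt hb]
  rw [e9]
  set r9 := Function.update r8 7 (v * N * 4 + 1) with hr9
  have e10 : step w prog ⟨10, r9, M⟩ = ⟨11, Function.update r9 7 (v * N * 4 + 1 + 1), M⟩ := by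
    have h0 : r9 7 = v * N * 4 + 1 := by simp [hr9]
    have h3 : r9 10 = 1 := by simp [hr9, hr8, hr7, hr6, hr5, hr4, hr3, hr2, hr1]
    have hb : v * N * 4 + 1 + 1 < 2 ^ w := by omega
    simp [step, prog, Config.put, h0, h3, Nat.mod_eq_of_lt hb]
  rw [e10]
  set r10 := Function.update r9 7 (v * N * 4 + 1 + 1) with hr10
  constructor
  · rfl
  · rfl
  · simp [hr10, hr9, hr8, hr7, hr6, hr5, hr4, hr3, hr2]
  · simp [hr10, hr9, hr8, hr7, hr6, hr5, hr4, hr3]
  · simp [hr10, hr9, hr8, hr7, hr6]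
    omega
  · simp [hr10]
    omega
  · simp [hr10, hr9, hr8, hr7, hr6, hr5, hr4, hr3, hr2, hr1, hr]
  · simp [hr10, hr9, hr8, hr7, hr6, hr5, hr4, hr3, hr2, hr1]
  · simp [hr10, hr9, hr8, hr7, hr6, hr5, hr4, hr3, hr2, hr1]

theorem final_steps {w N j x y : ℕ} {M : ℕ → ℕ} {s : Config} (h : LInv M N j x y N s)
    {f : ℕ} (hf : M (16 * j) = f) (hb : f < 2 ^ w) :
    prog[((step w prog)^[2] s).pc]? = some Instr.halt ∧ ((step w prog)^[2] s).reg 0 = f := by
  obtain ⟨pc, r, m⟩ := s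
  obtain ⟨hpc, hmem, h3, h5, h6, h7, h8, h9, h10⟩ := h
  simp only at hpc hmem h3 h5 h6 h7 h8 h9 h10
  subst hpc hmem
  simp only [Function.iterate_succ_apply, Function.iterate_zero, id]
  have e1 : step w prog ⟨11, r, m⟩ = ⟨12, r, m⟩ := by
    simp [step, prog, h8, h3]
  rw [e1]
  have e2 : step w prog ⟨12, r, m⟩ = ⟨13, Function.update r 0 f, m⟩ := by
    simp [step, prog, Config.put, h5, hf, Nat.mod_eq_of_lt hb]
  rw [e2]
  constructor
  · simp [prog]
  · simp

end Pool.Agent.H440R5
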