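import Pool.Agent.H440R5.Auto

/-!
# Sparse bilinear representations of binary relations
-/

namespace Pool.Agent.H440R5

/-- `Rep F R M A`: the relation `F` has a representation by `R` parallel probes `(X u i, Y v i)`
into a table with `M` entries, with codes from an alphabet of size `A`. -/
def Rep {V : Type} (F : V → V → Prop) (R M A : ℕ) : Prop :=
  ∃ (ι α : Type) (_ : Fintype ι) (_ : Fintype α) (X Y : V → ι → α) (K : Set (α × α)),
    Fintype.card ι ≤ R ∧ K.ncard ≤ M ∧ Fintype.card α ≤ A ∧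
      ∀ u v, F u v ↔ ∃ i, (X u i, Y v i) ∈ K

variable {V : Type}

theorem Rep.mono {F : V → V → Prop} {R M A R' M' A' : ℕ} (h : Rep F R M A) (hR : R ≤ R')
    (hM : M ≤ M') (hA : A ≤ A') : Rep F R' M' A' := by
  obtain ⟨ι, α, i1, i2, X, Y, K, h1, h2, h3, h4⟩ := h
  exact ⟨ι, α, i1, i2, X, Y, K, h1.trans hR, h2.trans hM, h3.trans hA, h4⟩

theorem Rep.congr {F G : V → V → Prop} {R M A : ℕ} (h : Rep F R M A)
    (hFG : ∀ u v, G u v ↔ F u v) : Rep G R M A := by
  obtain ⟨ι, α, i1, i2, X, Y, K, h1, h2, h3, h4⟩ := h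
  exact ⟨ι, α, i1, i2, X, Y, K, h1, h2, h3, fun u v => (hFG u v).trans (h4 u v)⟩

theorem Rep.table [Fintype V] (F : V → V → Prop) {M : ℕ}
    (hM : {p : V × V | F p.1 p.2}.ncard ≤ M) : Rep F 1 M (Fintype.card V) := by
  refine ⟨Unit, V, inferInstance, inferInstance, fun u _ => u, fun v _ => v,
    {p : V × V | F p.1 p.2}, ?_, hM, le_rfl, fun u v => ?_⟩
  · simp
  · simp

theorem Rep.or {F G : V → V → Prop} {R M A R' M' A' : ℕ} (h : Rep F R M A)
    (h' : Rep G R' M' A') : Rep (fun u v => F u v ∨ G u v) (R + R') (M + M') (A + A') := by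
  obtain ⟨ι, α, i1, i2, X, Y, K, h1, h2, h3, h4⟩ := h
  obtain ⟨ι', α', i1', i2', X', Y', K', h1', h2', h3', h4'⟩ := h'
  refine ⟨ι ⊕ ι', α ⊕ α', inferInstance, inferInstance,
    fun u => Sum.elim (fun i => Sum.inl (X u i)) (fun i => Sum.inr (X' u i)),
    fun u => Sum.elim (fun i => Sum.inl (Y u i)) (fun i => Sum.inr (Y' u i)),
    (fun p : α × α => ((Sum.inl p.1 : α ⊕ α'), (Sum.inl p.2 : α ⊕ α'))) '' K ∪
    (fun p : α' × α' => ((Sum.inr p.1 : α ⊕ α'), (Sum.inr p.2 : α ⊕ α'))) '' K',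
    ?_, ?_, ?_, ?_⟩
  · rw [Fintype.card_sum]; omega
  · refine (Set.ncard_union_le _ _).trans ?_
    have e1 := Set.ncard_image_le (f := fun p : α × α =>
      ((Sum.inl p.1 : α ⊕ α'), (Sum.inl p.2 : α ⊕ α'))) (Set.toFinite K)
    have e2 := Set.ncard_image_le (f := fun p : α' × α' =>
      ((Sum.inr p.1 : α ⊕ α'), (Sum.inr p.2 : α ⊕ α'))) (Set.toFinite K')
    omega
  · rw [Fintype.card_sum]; omega
  · intro u v
    show F u v ∨ G u v ↔ _
    rw [h4, h4']
    constructor
    · rintro (⟨i, hi⟩ | ⟨i, hi⟩)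
      · exact ⟨Sum.inl i, Or.inl ⟨_, hi, rfl⟩⟩
      · exact ⟨Sum.inr i, Or.inr ⟨_, hi, rfl⟩⟩
    · rintro ⟨i | i, hi⟩
      · rcases hi with ⟨p, hp, he⟩ | ⟨p, hp, he⟩
        · left
          refine ⟨i, ?_⟩
          simp only [Sum.elim_inl, Prod.mk.injEq, Sum.inl.injEq] at he
          rw [← he.1, ← he.2]
          exact hp
        · simp at he
      · rcases hi with ⟨p, hp, he⟩ | ⟨p, hp, he⟩
        · simp at he
        · right
          refine ⟨i, ?_⟩
          simp only [Sum.elim_inr, Prod.mk.injEq, Sum.inr.injEq] at he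
          rw [← he.1, ← he.2]
          exact hp

theorem Rep.false (A : ℕ) : Rep (fun _ _ : V => False) 0 0 A := by
  refine ⟨Empty, Empty, inferInstance, inferInstance, fun _ i => i.elim, fun _ i => i.elim,
    ∅, ?_, ?_, ?_, ?_⟩ <;> simp

theorem Rep.exists_lt {F : ℕ → V → V → Prop} {R M A : ℕ} (N : ℕ)
    (h : ∀ a < N, Rep (F a) R M A) :
    Rep (fun u v => ∃ a < N, F a u v) (N * R) (N * M) (N * A) := by
  induction N with
  | zero =>
    refine ((Rep.false (V := V) 0).mono ?_ ?_ ?_).congr ?_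
    · simp
    · simp
    · simp
    · intro u v; simp
  | succ N ih =>
    have h1 := ih (fun a ha => h a (by omega))
    have h2 := h N (by omega)
    refine ((h1.or h2).mono ?_ ?_ ?_).congr ?_
    · ring_nf; omega
    · ring_nf; omega
    · ring_nf; omega
    · intro u v
      constructor
      · rintro ⟨a, ha, h3⟩
        rcases Nat.lt_succ_iff_lt_or_eq.mp ha with h' | h'
        · exact Or.inl ⟨a, h', h3⟩
        · rw [h'] at h3; exact Or.inr h3
      · rintro (⟨a, ha, h3⟩ | h3)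
        · exact ⟨a, by omega, h3⟩
        · exact ⟨N, by omega, h3⟩

/-- Enumerate a finite set with at most `r` elements. -/
theorem exists_list {s : Finset V} {r : ℕ} (h : s.card ≤ r) :
    ∃ f : Fin r → Option V, ∀ z, z ∈ s ↔ ∃ i, f i = some z := by
  classical
  refine ⟨fun i => if h : (i : ℕ) < s.card then some (s.equivFin.symm ⟨i, h⟩ : V) else none, ?_⟩
  intro z
  constructor
  · intro hz
    refine ⟨⟨s.equivFin ⟨z, hz⟩, lt_of_lt_of_le (s.equivFin ⟨z, hz⟩).isLt h⟩, ?_⟩
    simp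
  · rintro ⟨i, hi⟩
    by_cases h' : (i : ℕ) < s.card
    · simp only [dif_pos h', Option.some.injEq] at hi
      rw [← hi]
      exact (s.equivFin.symm ⟨i, h'⟩).2
    · simp [dif_neg h'] at hi

theorem Rep.left {F : V → V → Prop} {R M A r : ℕ} (h : Rep F R M A) (Nb : V → Finset V)
    (hr : ∀ x, (Nb x).card ≤ r) :
    Rep (fun x y => ∃ z ∈ Nb x, F z y) (r * R) M (A + 1) := by
  classical
  obtain ⟨ι, α, i1, i2, X, Y, K, h1, h2, h3, h4⟩ := h
  choose f hf using fun x => exists_list (hr x)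
  refine ⟨Fin r × ι, Option α, inferInstance, inferInstance,
    fun u i => (f u i.1).map (fun z => X z i.2), fun v i => some (Y v i.2),
    (fun p : α × α => ((some p.1 : Option α), (some p.2 : Option α))) '' K, ?_, ?_, ?_, ?_⟩
  · rw [Fintype.card_prod, Fintype.card_fin]
    exact Nat.mul_le_mul_left _ h1
  · exact (Set.ncard_image_le (Set.toFinite K)).trans h2
  · rw [Fintype.card_option]; omega
  · intro u v
    constructor
    · rintro ⟨z, hz, hF⟩
      obtain ⟨i, hi⟩ := (hf u z).mp hz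
      obtain ⟨j, hj⟩ := (h4 z v).mp hF
      refine ⟨(i, j), (X z j, Y v j), hj, ?_⟩
      simp [hi]
    · rintro ⟨⟨i, j⟩, p, hp, he⟩
      simp only [Prod.mk.injEq, Option.some.injEq] at he
      obtain ⟨he1, he2⟩ := he
      cases hz : f u i with
      | none => rw [hz] at he1; simp at he1
      | some z =>
        rw [hz] at he1
        simp only [Option.map_some, Option.some.injEq] at he1
        refine ⟨z, (hf u z).mpr ⟨i, hz⟩, (h4 z v).mpr ⟨j, ?_⟩⟩
        rw [← he1, ← he2]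
        exact hp

theorem Rep.swap {F : V → V → Prop} {R M A : ℕ} (h : Rep F R M A) :
    Rep (fun x y => F y x) R M A := by
  obtain ⟨ι, α, i1, i2, X, Y, K, h1, h2, h3, h4⟩ := h
  refine ⟨ι, α, i1, i2, Y, X, Prod.swap '' K, h1, ?_, h3, ?_⟩
  · exact (Set.ncard_image_le (Set.toFinite K)).trans h2
  · intro u v
    show F v u ↔ _
    rw [h4]
    simp

theorem Rep.right {F : V → V → Prop} {R M A r : ℕ} (h : Rep F R M A) (Nb : V → Finset V)
    (hr : ∀ x, (Nb x).card ≤ r) :
    Rep (fun x y => ∃ z ∈ Nb y, F x z) (r * R) M (A + 1) :=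
  (h.swap.left Nb hr).swap

end Pool.Agent.H440R5
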