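import Pool.Agent.H440R5.Rep

/-!
# From sparse bilinear representations to word RAM data structures
-/

namespace Pool.Agent.H440R5

section trie
variable {κ : Type} (kb : κ → ℕ → Bool × Bool)

open Classical in
/-- The next candidate key after reading the letter `b` at position `l`. -/
noncomputable def nxt (l : ℕ) (o : Option κ) (b : Bool × Bool) : Option κ :=
  if h : ∃ k' : κ, (∃ k, o = some k ∧ ∀ i < l, kb k' i = kb k i) ∧ kb k' l = b
  then some h.choose else none

open Classical in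
/-- Any key, if there is one. -/
noncomputable def start (κ : Type) : Option κ :=
  if h : Nonempty κ then some h.some else none

/-- The candidate `o` is right after reading `l` letters of the word `inp`. -/
def Good (l : ℕ) (o : Option κ) (inp : ℕ → Bool × Bool) : Prop :=
  (∀ k, o = some k → ∀ i < l, kb k i = inp i) ∧ (o = none → ∀ k, ¬ ∀ i < l, kb k i = inp i)

theorem good_start (inp : ℕ → Bool × Bool) : Good kb 0 (start κ) inp := by
  constructor
  · intro k _ i hi
    omega
  · intro h k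
    unfold start at h
    rw [dif_pos ⟨k⟩] at h
    simp at h

theorem good_nxt {l : ℕ} {o : Option κ} {inp : ℕ → Bool × Bool} (h : Good kb l o inp) :
    Good kb (l + 1) (nxt kb l o (inp l)) inp := by
  unfold nxt
  by_cases hex : ∃ k' : κ, (∃ k, o = some k ∧ ∀ i < l, kb k' i = kb k i) ∧ kb k' l = inp l
  · rw [dif_pos hex]
    constructor
    · intro k hk i hi
      have hk' : hex.choose = k := by simpa using hk
      obtain ⟨⟨k0, hk0, h1⟩, h2⟩ := hex.choose_spec
      rw [hk'] at h1 h2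
      rcases Nat.lt_succ_iff_lt_or_eq.mp hi with h' | h'
      · rw [h1 i h']
        exact h.1 k0 hk0 i h'
      · rw [h']; exact h2
    · intro h'
      simp at h'
  · rw [dif_neg hex]
    constructor
    · intro k hk
      simp at hk
    · intro _ k hk
      cases ho : o with
      | none =>
        exact h.2 ho k (fun i hi => hk i (by omega))
      | some k0 =>
        apply hex
        refine ⟨k, ⟨k0, ho, fun i hi => ?_⟩, hk l (by omega)⟩
        rw [hk i (by omega), h.1 k0 ho i hi]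

variable {ℓ : ℕ} (hℓ : 0 < ℓ)

/-- The transition function of the automaton which searches a key. -/
noncomputable def tr (hℓ : 0 < ℓ) (q : Option (Fin ℓ × Option κ)) (x y : Bool) :
    Option (Fin ℓ × Option κ) :=
  match q with
  | none => none
  | some (l, o) =>
    if h : (l : ℕ) + 1 < ℓ then some (⟨l + 1, h⟩, nxt kb l o (x, y))
    else
      match nxt kb l o (x, y) with
      | some _ => none
      | none => some (⟨0, hℓ⟩, start κ)

theorem run_none (x y : ℕ → Bool) {i : ℕ}
    (h : arun (tr kb hℓ) (some (⟨0, hℓ⟩, start κ)) x y i = none) (j : ℕ) :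
    arun (tr kb hℓ) (some (⟨0, hℓ⟩, start κ)) x y (i + j) = none := by
  induction j with
  | zero => exact h
  | succ j ih =>
    rw [← Nat.add_assoc]
    simp only [arun]
    rw [ih]
    rfl

theorem run_in_block (x y : ℕ → Bool) {a : ℕ}
    (h : arun (tr kb hℓ) (some (⟨0, hℓ⟩, start κ)) x y a = some (⟨0, hℓ⟩, start κ))
    (l : ℕ) (hl : l < ℓ) :
    ∃ o, arun (tr kb hℓ) (some (⟨0, hℓ⟩, start κ)) x y (a + l) = some (⟨l, hl⟩, o) ∧
      Good kb l o (fun i => (x (a + i), y (a + i))) := by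
  induction l with
  | zero => exact ⟨start κ, h, good_start kb _⟩
  | succ l ih =>
    obtain ⟨o, h1, h2⟩ := ih (by omega)
    refine ⟨_, ?_, good_nxt kb h2⟩
    rw [← Nat.add_assoc]
    simp only [arun]
    rw [h1]
    simp only [tr]
    rw [dif_pos hl]

theorem run_block (x y : ℕ → Bool) {a : ℕ}
    (h : arun (tr kb hℓ) (some (⟨0, hℓ⟩, start κ)) x y a = some (⟨0, hℓ⟩, start κ)) :
    ((∃ k, ∀ i < ℓ, kb k i = (x (a + i), y (a + i))) →
      arun (tr kb hℓ) (some (⟨0, hℓ⟩, start κ)) x y (a + ℓ) = none) ∧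
    ((¬ ∃ k, ∀ i < ℓ, kb k i = (x (a + i), y (a + i))) →
      arun (tr kb hℓ) (some (⟨0, hℓ⟩, start κ)) x y (a + ℓ) = some (⟨0, hℓ⟩, start κ)) := by
  obtain ⟨l, rfl⟩ : ∃ l, ℓ = l + 1 := ⟨ℓ - 1, by omega⟩
  obtain ⟨o, h1, h2⟩ := run_in_block kb hℓ x y h l (by omega)
  have h3 := good_nxt kb h2
  rw [← Nat.add_assoc]
  simp only [arun]
  rw [h1]
  simp only [tr]
  rw [dif_neg (by simp)]
  constructor
  · rintro ⟨k, hk⟩
    cases ho : nxt kb l o (x (a + l), y (a + l)) with
    | none => exact absurd hk (h3.2 ho k)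
    | some k' => rfl
  · intro hno
    cases ho : nxt kb l o (x (a + l), y (a + l)) with
    | none => rfl
    | some k' => exact absurd ⟨k', h3.1 k' ho⟩ hno

theorem run_main (x y : ℕ → Bool) (r : ℕ) :
    ((∃ j < r, ∃ k, ∀ i < ℓ, kb k i = (x (j * ℓ + i), y (j * ℓ + i))) →
      arun (tr kb hℓ) (some (⟨0, hℓ⟩, start κ)) x y (r * ℓ) = none) ∧
    ((¬ ∃ j < r, ∃ k, ∀ i < ℓ, kb k i = (x (j * ℓ + i), y (j * ℓ + i))) →
      arun (tr kb hℓ) (some (⟨0, hℓ⟩, start κ)) x y (r * ℓ) = some (⟨0, hℓ⟩, start κ)) := by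
  induction r with
  | zero =>
    constructor
    · rintro ⟨j, hj, _⟩
      omega
    · intro _
      simp [arun]
  | succ r ih =>
    have e1 : (r + 1) * ℓ = r * ℓ + ℓ := by ring
    rw [e1]
    by_cases h : ∃ j < r, ∃ k, ∀ i < ℓ, kb k i = (x (j * ℓ + i), y (j * ℓ + i))
    · have h1 := ih.1 h
      have h2 := run_none kb hℓ x y h1 ℓ
      refine ⟨fun _ => h2, fun hno => ?_⟩
      exfalso
      apply hno
      obtain ⟨j, hj, h'⟩ := h
      exact ⟨j, by omega, h'⟩
    · have h1 := ih.2 h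
      have h2 := run_block kb hℓ x y h1
      constructor
      · rintro ⟨j, hj, h'⟩
        apply h2.1
        rcases Nat.lt_succ_iff_lt_or_eq.mp hj with h3 | h3
        · exact absurd ⟨j, h3, h'⟩ h
        · rw [← h3]; exact h'
      · intro hno
        apply h2.2
        intro h'
        exact hno ⟨r, by omega, h'⟩

end trie

/-- A data structure for any relation with a sparse bilinear representation. -/
theorem Rep.oracle {n R M A ℓ S : ℕ} {F : Fin n → Fin n → Prop} (h : Rep F R M A)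
    (hℓ : 0 < ℓ) (hA : A ≤ 2 ^ ℓ) (hS : 16 * (1 + ℓ * (1 + M) + 1) + 4 * (R * ℓ * n) + 16 ≤ S)
    (hRS : R * ℓ ≤ S) :
    ∃ M : ℕ → ℕ, (∀ a, S ≤ a → M a = 0) ∧ (∀ a, M a ≤ 2 * S) ∧
      ∀ w, 2 * S < 2 ^ w → ∀ T, 13 + 10 * (R * ℓ) ≤ T → ∀ u v : Fin n,
        prog[((step w prog)^[T] (queryConfig M u v)).pc]? = some Instr.halt ∧
        (F u v → ((step w prog)^[T] (queryConfig M u v)).reg 0 = 1) ∧
        (¬ F u v → ((step w prog)^[T] (queryConfig M u v)).reg 0 = 0) := by
  classical
  obtain ⟨ι, α, i1, i2, X, Y, K, h1, h2, h3, h4⟩ := h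
  let code : α → ℕ := fun a => (Fintype.equivFin α a : ℕ)
  have hcode : ∀ a, code a < 2 ^ ℓ := fun a =>
    lt_of_lt_of_le (Fintype.equivFin α a).isLt (h3.trans hA)
  have hinj : ∀ a b : α, (∀ i < ℓ, (code a).testBit i = (code b).testBit i) → a = b := by
    intro a b hab
    have : code a = code b := by
      apply Nat.eq_of_testBit_eq
      intro i
      by_cases hi : i < ℓ
      · exact hab i hi
      · rw [Nat.testBit_lt_two_pow (lt_of_lt_of_le (hcode a)
          (Nat.pow_le_pow_right (by norm_num) (by omega))),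
          Nat.testBit_lt_two_pow (lt_of_lt_of_le (hcode b)
          (Nat.pow_le_pow_right (by norm_num) (by omega)))]
    exact (Fintype.equivFin α).injective (Fin.ext this)
  let R' := Fintype.card ι
  let idx : ι ≃ Fin R' := Fintype.equivFin ι
  let xs : Fin n → ℕ → Bool := fun u i =>
    if h : i / ℓ < R' then (code (X u (idx.symm ⟨i / ℓ, h⟩))).testBit (i % ℓ) else Bool.false
  let ys : Fin n → ℕ → Bool := fun u i =>
    if h : i / ℓ < R' then (code (Y u (idx.symm ⟨i / ℓ, h⟩))).testBit (i % ℓ) else Bool.false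
  let kb : K → ℕ → Bool × Bool := fun k i =>
    ((code k.1.1).testBit i, (code k.1.2).testBit i)
  let flag : Option (Fin ℓ × Option K) → Bool := fun q => q.isNone
  have hcard : Fintype.card (Option (Fin ℓ × Option K)) ≤ 1 + ℓ * (1 + M) := by
    rw [Fintype.card_option, Fintype.card_prod, Fintype.card_option, Fintype.card_fin,
      Fintype.card_eq_nat_card, Nat.card_coe_set_eq]
    have : ℓ * (K.ncard + 1) ≤ ℓ * (1 + M) := Nat.mul_le_mul_left _ (by omega)
    omega
  have hR' : R' * ℓ ≤ R * ℓ := Nat.mul_le_mul_right _ h1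
  have hR'n : R' * ℓ * n ≤ R * ℓ * n := Nat.mul_le_mul_right _ hR'
  obtain ⟨Mem, m1, m2, m3⟩ := exists_memory (tr kb hℓ) (some (⟨0, hℓ⟩, start K)) flag xs ys
    (R' * ℓ) (S := S) (by omega) (by omega)
  refine ⟨Mem, m1, m2, fun w hw T hT u v => ?_⟩
  obtain ⟨m4, m5⟩ := m3 w hw T (by omega) u v
  refine ⟨m4, ?_⟩
  rw [m5]
  have hF : F u v ↔ ∃ j < R', ∃ k : K, ∀ i < ℓ,
      kb k i = (xs u (j * ℓ + i), ys v (j * ℓ + i)) := by
    rw [h4]
    have e1 : ∀ j i : ℕ, i < ℓ → (j * ℓ + i) / ℓ = j := by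
      intro j i hi
      rw [mul_comm, Nat.mul_add_div hℓ, Nat.div_eq_of_lt hi, Nat.add_zero]
    have e2 : ∀ j i : ℕ, i < ℓ → (j * ℓ + i) % ℓ = i := by
      intro j i hi
      rw [mul_comm, Nat.mul_add_mod, Nat.mod_eq_of_lt hi]
    have hx : ∀ (j : ℕ) (hj : j < R') (i : ℕ), i < ℓ → xs u (j * ℓ + i) =
        (code (X u (idx.symm ⟨j, hj⟩))).testBit i := by
      intro j hj i hi
      simp only [xs, e1 j i hi, e2 j i hi]
      rw [dif_pos hj]
    have hy : ∀ (j : ℕ) (hj : j < R') (i : ℕ), i < ℓ → ys v (j * ℓ + i) =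
        (code (Y v (idx.symm ⟨j, hj⟩))).testBit i := by
      intro j hj i hi
      simp only [ys, e1 j i hi, e2 j i hi]
      rw [dif_pos hj]
    constructor
    · rintro ⟨i, hi⟩
      refine ⟨idx i, (idx i).isLt, ⟨_, hi⟩, fun t ht => ?_⟩
      rw [hx _ (idx i).isLt t ht, hy _ (idx i).isLt t ht]
      simp [kb]
    · rintro ⟨j, hj, k, hk⟩
      refine ⟨idx.symm ⟨j, hj⟩, ?_⟩
      have hk1 : k.1.1 = X u (idx.symm ⟨j, hj⟩) := by
        apply hinj
        intro i hi
        have := hk i hi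
        rw [hx _ hj i hi, hy _ hj i hi] at this
        exact congrArg Prod.fst this
      have hk2 : k.1.2 = Y v (idx.symm ⟨j, hj⟩) := by
        apply hinj
        intro i hi
        have := hk i hi
        rw [hx _ hj i hi, hy _ hj i hi] at this
        exact congrArg Prod.snd this
      rw [← hk1, ← hk2]
      exact k.2
  have hrun := run_main kb hℓ (xs u) (ys v) R'
  constructor
  · intro hFuv
    rw [hrun.1 (hF.mp hFuv)]
    simp [flag]
  · intro hFuv
    rw [hrun.2 (fun h' => hFuv (hF.mpr h'))]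
    simp [flag]

end Pool.Agent.H440R5
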